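import Pool.Agent.ISH.Def
import Pool.Agent.ISE.LogH
import Pool.Agent.PotH.CutI

/-!
# The cutoff of the rows `± l / 2` on the curve is admissible

* `cutR_of`: a function `f` near `1` in the bulk and small at the ends satisfies `CutR` on every admissible curve;
* **`exists_cutRH`**: rows half at `l / 2`, half at `- l / 2`, points on the imaginary axis;
* **`cut_GH`**: the field `cut` of `PBO.GOk (GH ex ex0)`.
-/

set_option autoImplicit false
set_option linter.unusedSectionVars false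

open MeasureTheory Set Filter Topology Complex

namespace ISH

open NUO (Tb)
open PotH (CrvP CutR uI uI_re uI_im uI_curve sI adm_sI)

noncomputable section

/-! ### abstract form -/

/-- what is asked of the cutoff near the line of the gas -/
structure NearC (ep c C : ℝ) (m : ℕ) (f : ℂ → ℂ) : Prop where
  one : ∀ u : ℂ, NUP1.l - 1 / 100 ≤ u.re → u.re ≤ NUP1.l + ep / 2 →
    ‖1 - f u‖ ≤ Real.exp (-(c * (m * Real.exp (-(8 / 3 * (1 - ep)) * |u.im|))))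
  sm : ∀ u : ℂ, NUP1.l - 1 / 100 ≤ u.re → u.re ≤ NUP1.l + ep / 2 →
    ‖f u‖ ≤ C * (m * Real.exp (-(8 / 3 * (1 - ep)) * |u.im|))
  df : ∀ u : ℂ, NUP1.l - 1 / 100 ≤ u.re → u.re ≤ NUP1.l + ep / 2 → DifferentiableAt ℂ f u

/-- **the logarithm in the bulk** -/
theorem lph_of {ep c C : ℝ} (h0 : 0 < ep) (h1 : ep ≤ 1 / 100) (hc : 0 < c) {e : ℝ} (he : 0 < e)
    (he1 : e ≤ 1) {A : ℝ} (hA0 : 0 < A) :
    ∃ m0 : ℕ, 1 ≤ m0 ∧ ∀ m ≥ m0, ∀ f : ℂ → ℂ, NearC ep c C m f → ∀ z : ℂ,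
      |z.re| ≤ (1 - e) * (3 / 8 * Real.log m) + 5 → |z.im| ≤ ep / 2 →
      DifferentiableAt ℂ (fun z => Complex.log (f (uI z))) z ∧
        ‖Complex.log (f (uI z))‖ ≤ A ∧
        ‖f (uI z)‖ = Real.exp (Complex.log (f (uI z))).re := by
  have ht1 : Tendsto (fun m : ℕ => (m : ℝ) ^ e) atTop atTop :=
    (tendsto_rpow_atTop he).comp tendsto_natCast_atTop_atTop
  obtain ⟨m2, hm2⟩ := eventually_atTop.1 (ht1.eventually_ge_atTop
    ((4 + 2 / A) * Real.exp 14 / c))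
  refine ⟨max 1 m2, le_max_left _ _, fun m hm f hf z hz hz' => ?_⟩
  have hmr : (1 : ℝ) ≤ m := by exact_mod_cast (le_max_left _ _).trans hm
  have hmp : (0 : ℝ) < m := by linarith
  have hL := Real.log_nonneg hmr
  obtain ⟨z1, z2⟩ := abs_le.1 hz'
  have hu1 : NUP1.l - 1 / 100 ≤ (uI z).re := by rw [uI_re]; linarith
  have hu2 : (uI z).re ≤ NUP1.l + ep / 2 := by rw [uI_re]; linarith
  have k1 := hf.one (uI z) hu1 hu2
  rw [uI_im] at k1
  have h2 : Real.exp (-14) * (m : ℝ) ^ (-(1 - e)) ≤ Real.exp (-(8 / 3 * (1 - ep)) * |z.re|) := by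
    rw [Real.rpow_def_of_pos hmp, ← Real.exp_add]
    refine Real.exp_le_exp.2 ?_
    have h4 : 8 / 3 * (1 - ep) * |z.re| ≤ 8 / 3 * |z.re| := by
      refine mul_le_mul_of_nonneg_right ?_ (abs_nonneg _)
      linarith
    have h5 : 8 / 3 * |z.re| ≤ 8 / 3 * ((1 - e) * (3 / 8 * Real.log m) + 5) := by linarith
    nlinarith
  have h3 : (m : ℝ) * (m : ℝ) ^ (-(1 - e)) = (m : ℝ) ^ e := by
    rw [← Real.rpow_one_add' hmp.le (by linarith)]
    congr 1
    ring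
  have h4 : 4 + 2 / A ≤ c * (m * Real.exp (-(8 / 3 * (1 - ep)) * |z.re|)) := by
    have h5 := hm2 m ((le_max_right _ _).trans hm)
    rw [div_le_iff₀ hc] at h5
    have h6 : (4 + 2 / A) ≤ Real.exp (-14) * (c * (m : ℝ) ^ e) := by
      have h7 : Real.exp (-14) * ((4 + 2 / A) * Real.exp 14) ≤ Real.exp (-14) * ((m : ℝ) ^ e * c) :=
        mul_le_mul_of_nonneg_left h5 (Real.exp_pos _).le
      have h8 : Real.exp (-14) * Real.exp 14 = 1 := by rw [← Real.exp_add]; simp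
      have h9 : Real.exp (-14) * ((4 + 2 / A) * Real.exp 14) = 4 + 2 / A := by
        rw [mul_left_comm, h8, mul_one]
      rw [h9] at h7
      linarith
    refine h6.trans ?_
    rw [← h3]
    calc Real.exp (-14) * (c * (m * (m : ℝ) ^ (-(1 - e)))) =
          c * (m * (Real.exp (-14) * (m : ℝ) ^ (-(1 - e)))) := by ring
      _ ≤ _ := by gcongr
  have h5 : ‖1 - f (uI z)‖ ≤ min (1 / 4) (A / 2) := by
    refine k1.trans ((Real.exp_le_exp.2 (neg_le_neg h4)).trans ?_)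
    have h6 := Real.add_one_le_exp (4 + 2 / A)
    have h7 : 0 < 2 / A := by positivity
    rw [Real.exp_neg]
    refine le_min ?_ ?_
    · rw [one_div]
      exact inv_anti₀ (by norm_num) (by linarith)
    · rw [show A / 2 = (2 / A)⁻¹ by rw [inv_div]]
      exact inv_anti₀ h7 (by linarith)
  obtain ⟨x, hx⟩ : ∃ x : ℂ, x = 1 - f (uI z) := ⟨_, rfl⟩
  rw [← hx] at h5
  have hph : f (uI z) = 1 + -x := by
    rw [hx]
    ring
  have hx1 : ‖-x‖ ≤ 1 / 4 := by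
    rw [norm_neg]
    exact h5.trans (min_le_left _ _)
  have hx2 : ‖-x‖ ≤ A / 2 := by
    rw [norm_neg]
    exact h5.trans (min_le_right _ _)
  have hsl : 1 + -x ∈ Complex.slitPlane := Complex.mem_slitPlane_of_norm_lt_one (by linarith)
  refine ⟨?_, ?_, ?_⟩
  · have hu : DifferentiableAt ℂ uI z := by
      unfold uI
      fun_prop
    refine DifferentiableAt.clog ?_ ?_
    · exact DifferentiableAt.comp (g := f) (f := uI) z (hf.df _ hu1 hu2) hu
    · rw [hph]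
      exact hsl
  · rw [hph]
    have h6 := Complex.norm_log_one_add_half_le_self (z := -x) (by linarith)
    linarith
  · have hne : (1 + -x) ≠ 0 := Complex.slitPlane_ne_zero hsl
    rw [hph, ← Complex.norm_exp, Complex.exp_log hne]

section sea

variable [NUSea.Sea]

/-- **abstract cutoffs are admissible** -/
theorem cutR_of {ep e1 c C : ℝ} (hep : 0 < ep) (hep1 : ep ≤ 1 / 100) (he : 0 < e1)
    (he1 : e1 ≤ 1 / 100) (hc : 0 < c) (hC : 1 ≤ C) (Cc : ℝ) :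
    ∃ C0 : ℝ, 1 ≤ C0 ∧ ∃ m0 : ℕ, 1 ≤ m0 ∧ ∀ m ≥ m0, ∃ Bc Bc' : ℝ → ℝ,
      ∀ f : ℂ → ℂ, Measurable f → NearC ep c C m f → ∀ η η1 : ℝ → ℝ, CrvP e1 Cc m η η1 →
      CutR ep C0 ((1 - e1) * Tb (Real.log m)) m (fun t => ‖f (NUO.pA η t)‖) Bc Bc' := by
  obtain ⟨C2, hC2, HC2⟩ := NUR2.ext_anal 4 (κ := ep / 2) (by linarith) (by linarith)
  obtain ⟨m2, hm21, HL⟩ := lph_of (C := C) hep hep1 hc he (by linarith : e1 ≤ 1) (A := 1 / C2)
    (by positivity)
  obtain ⟨C0, hC0, HB⟩ := NUSea.H0.exists_Bl (p := 8 / 3 * (1 - ep)) (c := c) (C1 := C)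
    (by linarith) (by linarith) hc (by linarith)
  have ht : Tendsto (fun m : ℕ => (m : ℝ) ^ (-(e1 / 2))) atTop (𝓝 0) :=
    (tendsto_rpow_neg_atTop (by positivity)).comp tendsto_natCast_atTop_atTop
  obtain ⟨m3, hm3⟩ := eventually_atTop.1 (ht.eventually_le_const (show (0 : ℝ) < ep / 4 by linarith))
  refine ⟨C0, hC0, max m2 m3, hm21.trans (le_max_left _ _), fun m hm => ?_⟩
  have hmm2 := (le_max_left m2 m3).trans hm
  have hmm3 := (le_max_right m2 m3).trans hm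
  have hm0 : 1 ≤ m := hm21.trans hmm2
  obtain ⟨B, B', g1, g2, g3, g4, -, -, g7, g8, g9, g10, g11⟩ := HB m hm0
  refine ⟨B, B', fun f hmf hW η η1 hη => ?_⟩
  have hB' : B' = deriv B := funext fun t => (g2 t).deriv.symm
  have hpos : ∀ t, NUP1.l - 1 / 100 ≤ (NUO.pA η t).re ∧ (NUO.pA η t).re ≤ NUP1.l + ep / 2 := by
    intro t
    rw [NUSea.H0.pA_re]
    have h2 := hη.nn t
    have h3 := (abs_le.1 (hη.le t)).2
    constructor <;> linarith
  have key : ∀ t, ‖f (NUO.pA η t)‖ ≤ 1 + Real.exp (-(c * (m * Real.exp (-(8 / 3 * (1 - ep)) * |t|)))) ∧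
      ‖f (NUO.pA η t)‖ ≤ C * (m * Real.exp (-(8 / 3 * (1 - ep)) * |t|)) := by
    intro t
    have k1 := hW.one (NUO.pA η t) (hpos t).1 (hpos t).2
    have k2 := hW.sm (NUO.pA η t) (hpos t).1 (hpos t).2
    rw [NUSea.H0.pA_im] at k1 k2
    refine ⟨?_, k2⟩
    have h1 := norm_sub_norm_le (f (NUO.pA η t)) 1
    rw [norm_one, norm_sub_rev] at h1
    linarith
  have hmeas : Measurable fun t => ‖f (NUO.pA η t)‖ := by
    have h1 : Measurable (NUO.pA η) := by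
      have := hη.cont.measurable
      unfold NUO.pA NUP1.vl
      fun_prop
    exact (hmf.comp h1).norm
  refine ⟨hmeas, fun t => norm_nonneg _, g2, ?_, g3, g4, g7, g8, g9, g10,
    fun t => (g11 t _ (key t).1 (key t).2).1, fun t => ?_,
    fun t => (g11 t _ (key t).1 (key t).2).2, ?_⟩
  · rw [hB']
    exact g1.continuous_deriv (by norm_num)
  · refine (key t).1.trans ?_
    have h2 : Real.exp (-(c * (m * Real.exp (-(8 / 3 * (1 - ep)) * |t|)))) ≤ 1 := by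
      rw [Real.exp_le_one_iff]
      have : 0 ≤ c * (m * Real.exp (-(8 / 3 * (1 - ep)) * |t|)) := by positivity
      linarith
    linarith
  · -- the logarithm in the bulk
    obtain ⟨ε, e, hcur, hε0, hε, hε1⟩ := hη.cur
    have hηs : ∀ x, |η x| ≤ ep / 2 / 2 := fun x => by
      have h2 := (hcur.O4.1 x).trans (hε.trans (hm3 m hmm3))
      linarith
    have hO : NUOC.O 4 1 η := hcur.O4.mono (by linarith)
    have hloc : ∀ z : ℂ, |z.re| < (1 - e1) * Tb (Real.log m) + 2 → |z.im| < ep / 2 →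
        |z.re| ≤ (1 - e1) * (3 / 8 * Real.log m) + 5 ∧ |z.im| ≤ ep / 2 := by
      intro z h2 h3
      unfold Tb at h2
      exact ⟨by linarith, h3.le⟩
    have hext := HC2 (b := (1 - e1) * Tb (Real.log m)) (A := 1 / C2)
      (F := fun z => Complex.log (f (uI z))) (η := η) (by positivity)
      (fun z hz => (HL m hmm2 f hW z (hloc z hz.1 hz.2).1
        (hloc z hz.1 hz.2).2).1.differentiableWithinAt)
      (fun z h2 h3 => (HL m hmm2 f hW z (hloc z h2 h3).1 (hloc z h2 h3).2).2.1) hO hηs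
    rw [mul_one_div_cancel (by linarith)] at hext
    refine ⟨_, hext, fun t ht => ?_⟩
    have hz1 : ((t : ℂ) + (η t : ℂ) * Complex.I).re = t := by simp
    have hz2 : ((t : ℂ) + (η t : ℂ) * Complex.I).im = η t := by simp
    have h4 := (HL m hmm2 f hW ((t : ℂ) + (η t : ℂ) * Complex.I) (by
      rw [hz1]
      unfold Tb at ht
      linarith) (by
      rw [hz2]
      linarith [hηs t])).2.2
    rw [uI_curve] at h4
    rw [h4, ← uI_curve η t]

/-- admissible cutoffs: the constant can be increased -/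
theorem CutR.mono {ep C0 C1 b : ℝ} {m : ℕ} {cr Bc Bc' : ℝ → ℝ} (h : CutR ep C0 b m cr Bc Bc') (h1 : C0 ≤ C1) :
    CutR ep C1 b m cr Bc Bc' :=
  ⟨h.meas, h.nn, h.Bd, h.Bcc, h.B0, h.B1, h.PI, h.PC.trans h1, h.EI, h.EC.trans h1, h.le, h.le2,
    fun t => (h.dec t).trans (by gcongr), h.ext⟩

end sea

/-! ### the rows `± l / 2` -/

section rows

open ISLH (psiK phK LH PK pts LOk LOk0 kM kM_pos)
open PBLZ (SX SX_nonneg SX_cons SX_ge)

variable {β s κ κm : ℝ} {u z : ℂ} {L : List (ℝ × ℂ)}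

/-- `‖1 - psiK‖ ≤ (4 / k) exp (-2 β |t|)` -/
theorem norm_one_sub_psiK (h : NUP1.Adm β s) (hz : |z.re + NUP1.l / 2| ≤ s) (h0 : 0 < κ) (h1 : κ ≤ 1) :
    ‖1 - psiK κ β z‖ ≤ 4 / NUP1.kap β s * Real.exp (-(2 * β) * |z.im|) := by
  have hd := ISLH.denK_ne h hz h0
  have hk := h.kap_pos
  have e : 1 - psiK κ β z = 2 * κ / (Complex.cos (2 * β * z + β * NUP1.l) + (κ : ℂ)) := by
    unfold psiK
    rw [eq_div_iff hd, sub_mul, div_mul_cancel₀ _ hd]
    ring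
  have hn : ‖(2 : ℂ) * κ‖ ≤ 2 := by
    rw [norm_mul, Complex.norm_real, Complex.norm_two, Real.norm_of_nonneg h0.le]
    linarith
  have hden : NUP1.kap β s * (Real.exp (2 * β * |z.im|) / 2) ≤
      ‖Complex.cos (2 * β * z + β * NUP1.l) + (κ : ℂ)‖ := by
    refine le_trans ?_ ((ISLH.denK_re (κ := κ) h hz).trans (re_le_norm _))
    have := NUP1.cosh_ge (2 * β * z.im)
    rw [NUP1.abs_arg h] at this
    have := mul_le_mul_of_nonneg_left this hk.le
    linarith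
  have hpos : 0 < NUP1.kap β s * (Real.exp (2 * β * |z.im|) / 2) := by positivity
  rw [e, norm_div]
  refine (div_le_div₀ (by norm_num) hn hpos hden).trans (le_of_eq ?_)
  rw [neg_mul, Real.exp_neg]
  field_simp
  ring

/-- the cutoff is exponentially small far away -/
theorem norm_phK_le (h : NUP1.Adm β s) (h0 : 0 < κm) (hL : LOk κm β s L u) :
    ‖phK β L u‖ ≤ 4 / NUP1.kap β s * SX β (pts L) u := by
  induction L with
  | nil => simp [phK, PK, pts, SX]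
  | cons p L ih =>
    have e : phK β (p :: L) u = (1 - psiK p.1 β (u - p.2)) + psiK p.1 β (u - p.2) * phK β L u := by
      unfold phK PK
      rw [List.map_cons, List.prod_cons]
      ring
    have e2 : pts (p :: L) = p.2 :: pts L := rfl
    have hp0 : 0 < p.1 := h0.trans_le (hL.lo p (by simp))
    have hp1 := hL.hi p (by simp)
    have hps := hL.st p (by simp)
    rw [e, e2, SX_cons, mul_add]
    refine (norm_add_le _ _).trans (add_le_add (norm_one_sub_psiK h hps hp0 hp1) ?_)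
    rw [norm_mul]
    refine (mul_le_of_le_one_left (norm_nonneg _) ?_).trans (ih hL.tail)
    refine (ISLH.norm_psiK h hps hp0 hp1).trans (Real.exp_le_one_iff.2 ?_)
    have := h.kap_pos
    have : 0 ≤ p.1 * NUP1.kap β s / 2 * Real.exp (-(2 * β) * |(u - p.2).im|) := by positivity
    linarith

theorem SX_le {h : ℝ} (hβ : 0 ≤ β) {X : List ℂ} (hh : ∀ x ∈ X, |x.im| ≤ h) (u : ℂ) :
    SX β X u ≤ Real.exp (2 * β * h) * (X.length * Real.exp (-(2 * β) * |u.im|)) := by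
  induction X with
  | nil => simp [SX]
  | cons x X ih =>
    have h1 := ih fun y hy => hh y (by simp [hy])
    rw [SX_cons, List.length_cons]
    have h2 : Real.exp (-(2 * β) * |(u - x).im|) ≤ Real.exp (2 * β * h) * Real.exp (-(2 * β) * |u.im|) := by
      rw [← Real.exp_add]
      refine Real.exp_le_exp.2 ?_
      have h3 : |u.im| - |x.im| ≤ |(u - x).im| := by rw [sub_im]; exact abs_sub_abs_le_abs_sub _ _
      have h4 := hh x (by simp)
      nlinarith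
    push_cast
    linarith

/-- **the cutoff of the rows `± l / 2` near the line of the gas** -/
theorem nearC_H {ep : ℝ} (h0 : 0 < ep) (h1 : ep ≤ 1 / 100) (n0 : ℕ) {hh : ℝ} (hhh : 0 ≤ hh) :
    ∃ c C : ℝ, 0 < c ∧ 1 ≤ C ∧ ∃ m0 : ℕ, 1 ≤ m0 ∧ ∀ m ≥ m0, ∀ (n b : ℕ) (x : Fin n → ℂ) (W : List ℂ),
      PBX.Cnt x 0 b b → W.length ≤ n0 → (∀ w ∈ W, w.re = 0 ∧ |w.im| ≤ hh) → m ≤ 2 * b + n0 →
      2 * b ≤ 3 * m → NearC ep c C m (NUP1.phi (4 / 3 * (1 - ep)) (List.ofFn x ++ W)) := by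
  have hA := adm_sI h0 h1
  obtain ⟨β, hβ⟩ : ∃ β : ℝ, β = 4 / 3 * (1 - ep) := ⟨_, rfl⟩
  have hβ0 : 0 < β := by rw [hβ]; nlinarith
  have e2 : 8 / 3 * (1 - ep) = 2 * β := by rw [hβ]; ring
  obtain ⟨h2, h3⟩ := ISLH.half_cos h0 h1
  rw [← hβ] at hA h2 h3
  have hk := hA.kap_pos
  have hhf : (0 : ℝ) < 1 / 2 := by norm_num
  have hkM := kM_pos hA hhf
  refine ⟨kM (1 / 2) β (sI ep) * Real.exp (-(2 * β * hh)) / 2, 16 / NUP1.kap β (sI ep) * Real.exp (2 * β * hh) + 1,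
    by positivity, ?_, 2 * n0 + 1, by omega, ?_⟩
  · have : 0 ≤ 16 / NUP1.kap β (sI ep) * Real.exp (2 * β * hh) := by positivity
    linarith
  intro m hm n b x W hc hl hW hb1 hb2
  have hm0 : (0 : ℝ) ≤ m := Nat.cast_nonneg m
  rw [← hβ]
  have hb : 0 < b := by omega
  have hL0 : LOk0 (1 / 2) 0 (LH β b W) := ISLH.LH_ok0 (by norm_num) h2 h3 le_rfl fun w hw => by
    rw [(hW w hw).1, abs_zero]
  have hne : LH β b W ≠ [] := ISLH.LH_ne hb
  have hstr : ∀ u : ℂ, NUP1.l - 1 / 100 ≤ u.re → u.re ≤ NUP1.l + ep / 2 →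
      LOk (1 / 2) β (sI ep) (LH β b W) u := by
    intro u hu1 hu2
    refine ⟨hL0.lo, hL0.hi, fun q hq => ?_⟩
    have h4 := abs_nonpos_iff.1 (hL0.re q hq)
    have h5 := NUP1.l_pos
    rw [sub_re, h4, sub_zero]
    unfold sI
    have h6 : (3 : ℝ) / 8 < NUP1.l := by
      unfold NUP1.l
      have := Real.pi_gt_three
      linarith
    rw [abs_le]
    constructor <;> linarith
  have hlen : ((pts (LH β b W)).length : ℝ) = 2 * b + W.length := by
    unfold pts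
    rw [List.length_map, ISLH.LH_len]
    push_cast
    ring
  have him : ∀ y ∈ pts (LH β b W), |y.im| ≤ hh := by
    intro y hy
    unfold pts at hy
    obtain ⟨q, hq, rfl⟩ := List.mem_map.1 hy
    exact ISLH.LH_im hhh (fun w hw => (hW w hw).2) q hq
  have hlo : (m : ℝ) / 2 ≤ 2 * b + W.length := by
    have h4 : m ≤ 2 * (2 * b) := by omega
    have h5 : (m : ℝ) ≤ 2 * (2 * b) := by exact_mod_cast h4
    have : (0 : ℝ) ≤ W.length := Nat.cast_nonneg _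
    linarith
  have hup : (2 * b + W.length : ℝ) ≤ 4 * m := by
    have h4 : 2 * b + W.length ≤ 4 * m := by omega
    exact_mod_cast h4
  rw [ISLH.phi_LH hc W]
  refine ⟨fun u hu1 hu2 => ?_, fun u hu1 hu2 => ?_, fun u hu1 hu2 => ?_⟩
  · have h4 := ISLH.norm_PK hA hhf (hstr u hu1 hu2)
    have e : 1 - phK β (LH β b W) u = PK β (LH β b W) u := by
      unfold phK
      ring
    rw [e, e2]
    refine h4.trans (Real.exp_le_exp.2 (neg_le_neg ?_))
    have h5 := SX_ge (β := β) (X := pts (LH β b W)) hβ0.le him (u := u) (t := u.im) rfl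
    rw [hlen] at h5
    obtain ⟨E, hE⟩ : ∃ E, E = Real.exp (-(2 * β) * |u.im|) := ⟨_, rfl⟩
    have hE0 : 0 < E := by rw [hE]; exact Real.exp_pos _
    rw [← hE] at h5 ⊢
    calc kM (1 / 2) β (sI ep) * Real.exp (-(2 * β * hh)) / 2 * (m * E) =
          kM (1 / 2) β (sI ep) * (Real.exp (-(2 * β * hh)) * (m / 2 * E)) := by ring
      _ ≤ kM (1 / 2) β (sI ep) * (Real.exp (-(2 * β * hh)) * ((2 * b + W.length) * E)) := by gcongr
      _ ≤ _ := mul_le_mul_of_nonneg_left h5 hkM.le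
  · have h4 := norm_phK_le hA hhf (hstr u hu1 hu2)
    have h5 := SX_le hβ0.le him u
    rw [hlen] at h5
    rw [e2]
    obtain ⟨E, hE⟩ : ∃ E, E = Real.exp (-(2 * β) * |u.im|) := ⟨_, rfl⟩
    have hE0 : 0 < E := by rw [hE]; exact Real.exp_pos _
    rw [← hE] at h5 ⊢
    have h6 : 0 ≤ (m : ℝ) * E := by positivity
    calc ‖phK β (LH β b W) u‖ ≤ 4 / NUP1.kap β (sI ep) * SX β (pts (LH β b W)) u := h4
      _ ≤ 4 / NUP1.kap β (sI ep) * (Real.exp (2 * β * hh) * ((2 * b + W.length) * E)) := by gcongr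
      _ ≤ 4 / NUP1.kap β (sI ep) * (Real.exp (2 * β * hh) * (4 * m * E)) := by gcongr
      _ = 16 / NUP1.kap β (sI ep) * Real.exp (2 * β * hh) * (m * E) := by ring
      _ ≤ _ := mul_le_mul_of_nonneg_right (by linarith) h6
  · exact (ISLH.cut_mainK hA hhf hne (hstr u hu1 hu2)).2.1

variable [NUSea.Sea]

/-- **the cutoff of the rows `± l / 2` is admissible** -/
theorem exists_cutRH {ep e1 : ℝ} (hep : 0 < ep) (hep1 : ep ≤ 1 / 100) (he : 0 < e1)
    (he1 : e1 ≤ 1 / 100) (Cc : ℝ) (n0 : ℕ) {hh : ℝ} (hhh : 0 ≤ hh) :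
    ∃ C0 : ℝ, 1 ≤ C0 ∧ ∃ m0 : ℕ, 1 ≤ m0 ∧ ∀ m ≥ m0, ∃ Bc Bc' : ℝ → ℝ,
      ∀ (n b : ℕ) (x : Fin n → ℂ) (W : List ℂ), PBX.Cnt x 0 b b → W.length ≤ n0 →
      (∀ w ∈ W, w.re = 0 ∧ |w.im| ≤ hh) → m ≤ 2 * b + n0 → 2 * b ≤ 3 * m →
      ∀ η η1 : ℝ → ℝ, CrvP e1 Cc m η η1 →
      CutR ep C0 ((1 - e1) * Tb (Real.log m)) m (PotH.cfW ep (List.ofFn x ++ W) η) Bc Bc' := by
  obtain ⟨c, C, hc, hC, m1, hm1, H⟩ := nearC_H hep hep1 n0 hhh
  obtain ⟨C0, hC0, m2, hm2, H2⟩ := cutR_of hep hep1 he he1 hc hC Cc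
  refine ⟨C0, hC0, max m1 m2, hm1.trans (le_max_left _ _), fun m hm => ?_⟩
  obtain ⟨Bc, Bc', H3⟩ := H2 m ((le_max_right _ _).trans hm)
  refine ⟨Bc, Bc', fun n b x W h1 h2 h3 h4 h5 η η1 hη => ?_⟩
  exact H3 _ (NUP1.Bd.measurable_phi _ _) (H m ((le_max_left _ _).trans hm) n b x W h1 h2 h3 h4 h5) η η1 hη

end rows

attribute [local instance] NUSea.seaH

/-- **the field `cut` of `PBO.GOk (GH ex ex0)`** -/
theorem cut_GH (ex ex0 : List ℂ) (hex : ∀ w ∈ ex, w.re = 0) : ∀ ep : ℝ, 0 < ep → ep ≤ 1 / 100 → ∀ e1 : ℝ,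
    0 < e1 → e1 ≤ 1 / 100 → ∀ J : ℝ, 0 ≤ J →
    ∃ C0 : ℝ, 1 ≤ C0 ∧ ∃ m0 : ℕ, ∀ m ≥ m0, ∃ cr Bc Bc' : ℝ → ℝ,
      CutR ep C0 ((1 - e1) * Tb (Real.log m)) m cr Bc Bc' ∧
      ∀ t, ‖((GH ex ex0).B m (4 / 3 * (1 - ep))).φ (NUO.pA (NUGC.etaC e1 J m m) t)‖ ≤ cr t := by
  intro ep hep hep1 e1 he he1 J hJ
  obtain ⟨hh, hhh, hW⟩ : ∃ hh : ℝ, 0 ≤ hh ∧ ∀ w ∈ ex, w.re = 0 ∧ |w.im| ≤ hh := by
    refine ⟨(ex.map fun w => |w.im|).sum, List.sum_nonneg fun a ha => ?_, fun w hw => ⟨hex w hw, ?_⟩⟩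
    · obtain ⟨w, -, rfl⟩ := List.mem_map.1 ha
      exact abs_nonneg _
    · exact List.single_le_sum (fun a ha => by
        obtain ⟨w, -, rfl⟩ := List.mem_map.1 ha
        exact abs_nonneg _) _ (List.mem_map.2 ⟨w, hw, rfl⟩)
  obtain ⟨Cc, hCc, Cb, m1, hcrv⟩ := PBO.crvP_etaC (J := J) he he1 hJ
  obtain ⟨C0, hC0, m2, hm2, H⟩ := exists_cutRH hep hep1 he he1 Cc (ex.length + 1) hhh
  obtain ⟨C1, hC1, m3, hm3, H'⟩ := PotH.exists_cutR hep hep1 he he1 Cc 0 (hh := 0) le_rfl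
  refine ⟨max C0 C1, hC0.trans (le_max_left _ _), max (max m1 m2) m3, fun m hm => ?_⟩
  obtain ⟨hm1, hT, hc, -⟩ := hcrv m (((le_max_left _ _).trans (le_max_left _ _)).trans hm)
  by_cases hodd : m % 2 = 1
  · obtain ⟨Bc, Bc', hB⟩ := H m (((le_max_right _ _).trans (le_max_left _ _)).trans hm)
    refine ⟨_, Bc, Bc', CutR.mono (hB (m - 1) ((m - 1) / 2) (PBH.xH m) ex (cnt_xH hodd) (by omega) hW (by omega)
      (by omega) _ _ hc) (le_max_left _ _), fun t => ?_⟩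
    show ‖(obH m (4 / 3 * (1 - ep)) ex ex0).φ _‖ ≤ _
    rw [obH_odd hodd]
    exact le_rfl
  · obtain ⟨Bc, Bc', hB⟩ := H' m ((le_max_right _ _).trans hm)
    have hz := hB m (List.replicate m 0) [] (PotH.RwI.zero le_rfl (by omega)) _ _ hc
    refine ⟨_, Bc, Bc', CutR.mono hz (le_max_right _ _), fun t => ?_⟩
    show ‖(obH m (4 / 3 * (1 - ep)) ex ex0).φ _‖ ≤ _
    rw [obH_even hodd]
    simp only [norm_zero]
    exact norm_nonneg _

end

end ISH
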