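import Pool.Agent.PB.RowsHn
import Pool.Agent.PB.S4R0
import Pool.Agent.PB.ClO0
import Pool.Agent.PB.Mst0
import Pool.Agent.NUGC.PrefMF
import Pool.Agent.ISE.RowH

/-!
# The physical function at the rows `± l / 2`, `k` odd: data, classes, geometry (helper39)

`k` odd effective rows: `k - 1` rows, half of them at `l / 2`, half at `- l / 2` (the rows of the honeycomb
cylinder), in both groups; ends `l / 2`, `- l / 2`; cutoffs over the rows and the points `ex` (quanta), `ex0`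
(strings), exponent `beC ep`; sea `NUSea.seaH` of the rows `± l / 2`.  For `k` even everything is `0`.

* `DH ex ex0 ep k`: the data; `KH`, `kDH`: the 16 classes, the kernels of D1, D1';
* `obH`, **`GH ex ex0`**: the one body data and the geometry.
-/

set_option autoImplicit false

noncomputable section

open Complex MeasureTheory

namespace ISH

open NUO NUP1 NUGC PBX PBR
open PBZ (hyR)
open PBH (xH)

/-- the end -/
def hh : ℂ := ((l / 2 : ℝ) : ℂ)

/-- the data with `k` effective rows -/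
def DH (ex ex0 : List ℂ) (ep : ℝ) (k : ℕ) : RD (k - 1) := RX (beC ep) (xH k) hh (-hh) ex ex0

/-- no class -/
def KZ : PBQ.KD := ⟨fun _ _ _ => 0, fun _ => 0, fun _ => 0, fun _ => 0, fun _ => 0⟩

/-- the 16 classes -/
def KH (ex ex0 : List ℂ) (ep : ℝ) (k : ℕ) : PBQ.KD :=
  if k % 2 = 1 then PB0.KRD (DH ex ex0 ep k) else KZ

/-- the kernels of D1 (`true`), D1' -/
def kDH (ex ex0 : List ℂ) (ep : ℝ) (k : ℕ) (o : Bool) : ℂ → ℂ :=
  if k % 2 = 1 then (if o then (DH ex ex0 ep k).XD else (DH ex ex0 ep k).XD') else fun _ => 0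

/-- the one body data -/
def obH (k : ℕ) (β : ℝ) (ex ex0 : List ℂ) : OB :=
  if k % 2 = 1 then obR (RX β (xH k) hh (-hh) ex ex0) ex ex0 (2 * Real.cos l) fun _ _ => 1
  else ⟨fun _ _ => 0, fun _ => 0, fun _ => 0⟩

attribute [local instance] NUSea.seaH

/-- **the geometry of the rows `± l / 2`, ends `l / 2`, `- l / 2`, `k` odd** -/
def GH (ex ex0 : List ℂ) : PBO.Geo where
  B k β := obH k β ex ex0
  one k ep e1 J _ O i := PotH.oneEH k (etaC e1 J k k) (TW ep e1 k) O i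
  EM := EMFH
  MF := NUPref.MF

section odd

variable {ex ex0 : List ℂ} {ep : ℝ} {k : ℕ}

theorem KH_odd (h : k % 2 = 1) : KH ex ex0 ep k = PB0.KRD (DH ex ex0 ep k) := if_pos h

theorem KH_even (h : ¬k % 2 = 1) : KH ex ex0 ep k = KZ := if_neg h

theorem kDH_odd (h : k % 2 = 1) (o : Bool) :
    kDH ex ex0 ep k o = if o then (DH ex ex0 ep k).XD else (DH ex ex0 ep k).XD' := if_pos h

theorem kDH_even (h : ¬k % 2 = 1) (o : Bool) : kDH ex ex0 ep k o = fun _ => 0 := if_neg h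

theorem obH_odd (h : k % 2 = 1) (β : ℝ) : obH k β ex ex0 =
    obR (RX β (xH k) hh (-hh) ex ex0) ex ex0 (2 * Real.cos l) fun _ _ => 1 := if_pos h

theorem obH_even (h : ¬k % 2 = 1) (β : ℝ) : obH k β ex ex0 = ⟨fun _ _ => 0, fun _ => 0, fun _ => 0⟩ := if_neg h

/-- the names of `PB/Mst0` -/
theorem isKD_H (h : k % 2 = 1) : IsKD (KH ex ex0 ep k) (kDH ex ex0 ep k) (DH ex ex0 ep k) := by
  constructor
  all_goals first
    | rw [KH_odd h]; rfl
    | rw [kDH_odd h]; rfl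

/-- the ends in the names of `NUP1/Rows` -/
theorem hh_rp (h : k % 2 = 1) : (NUP1.Rws.rp 0 : ℂ) = hh ∧ (NUP1.Rws.rp k : ℂ) = -hh := by
  rw [NUP1.Rws.rp_even (c := 0) rfl, NUP1.Rws.rp_odd h]
  refine ⟨rfl, ?_⟩
  unfold hh
  push_cast
  rfl

theorem hh_re : |hh.re| ≤ l / 2 := by
  have hl := Bd.l_pos
  unfold hh
  rw [ofReal_re, abs_of_pos (by linarith)]

theorem hh_re' : |(-hh).re| ≤ l / 2 := by
  rw [neg_re, abs_neg]
  exact hh_re

/-- `k - 1` rows, half at `l / 2`, half at `- l / 2` -/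
theorem cnt_hyR (h : k % 2 = 1) : Cnt (hyR k) 0 ((k - 1) / 2) ((k - 1) / 2) := by
  obtain ⟨M, rfl⟩ : ∃ M, k = 2 * M + 1 := ⟨k / 2, by omega⟩
  have e : (2 * M + 1 - 1) / 2 = M := by omega
  rw [e]
  exact cnt_hy_odd M

theorem cnt_xH (h : k % 2 = 1) : Cnt (xH k) 0 ((k - 1) / 2) ((k - 1) / 2) where
  pr f := by
    rw [pow_zero, one_mul, PBH.prod_xH (Nat.odd_iff.2 h)]
  val i := Or.inr (PBH.xH_val k i)

/-- the rows of the honeycomb cylinder up to the order -/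
theorem PE_xH (h : k % 2 = 1) : NUP1.N.PE (xH k) (hyR k) := (cnt_xH h).pe (cnt_hyR h)

theorem DH_Ok (hex : ∀ w ∈ ex, |w.re| ≤ l / 2) (hex0 : ∀ w ∈ ex0, |w.re| ≤ l / 2) (h : k % 2 = 1)
    (h0 : 0 < ep) (h1 : ep ≤ 1 / 100) : (DH ex ex0 ep k).Ok :=
  RX_Ok (PBO.beC_bd h0 h1).2.2 (PBO.beC_bd h0 h1).2.1 (cnt_xH h).rws (cnt_xH h).nx hh_re hh_re' hex hex0

end odd

theorem GH_one (ex ex0 : List ℂ) (k : ℕ) (ep e1 J : ℝ) {r : ℕ} (O : Fin r → Xo) (i : Fin r) :
    (GH ex ex0).one k ep e1 J r O i = PotH.oneEH k (etaC e1 J k k) (TW ep e1 k) O i := rfl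

/-- nonnegativity -/
theorem GH_nn (ex ex0 : List ℂ) (k : ℕ) (β : ℝ) : ((GH ex ex0).B k β).Nn := by
  show (obH k β ex ex0).Nn
  by_cases h : k % 2 = 1
  · rw [obH_odd h]
    refine obX_nn ?_ β _ ex ex0 fun a u => mul_nonneg (norm_nonneg _) zero_le_one
    have := cosl_nonneg
    positivity
  · rw [obH_even h]
    exact fun _ _ => le_rfl

end ISH

end
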