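import Pool.Agent.ISH.Def
import Pool.Agent.NUS4C.RowC
import Pool.Agent.NUGC.SeaLin
import Pool.Agent.NUSea.Bridge

/-!
# The geometry of the rows `± l / 2`: row factor, potential, exponents (helper39)

* **`obH_R`**: `(obH k β ex ex0).R a u = Rrow (k / 2) u * ThN u`, `k ≥ 3` odd;
* `obH_phi`: the cutoffs: `(k - 1) / 2` pairs and the further points;
* `seaG_eqH`: the sea term of a group at `seaH` is its mean field value `NUPref.MF`;
* **`gOk_of_cut`**: `GOk (GH ex ex0)` from the cutoff.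
-/

set_option autoImplicit false

noncomputable section

open Complex MeasureTheory

namespace ISH

open NUO NUP1 NUGC PBX PBR
open NUP1.Leg (thE)
open PBZ (hyR)
open NUSea.H0 (Gd)

attribute [local instance] NUSea.seaH

variable {ex ex0 : List ℂ} {k : ℕ} {β : ℝ}

theorem rwC_pos (u : ℂ) : PBX.rwC ((l : ℂ) / 2) u = rwN (l / 2) u := by
  unfold PBX.rwC rwN
  push_cast
  rfl

theorem rwC_neg (u : ℂ) : PBX.rwC (-((l : ℂ) / 2)) u = rwN (-(l / 2)) u := by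
  unfold PBX.rwC rwN
  push_cast
  rfl

/-- the moduli of the two ends -/
theorem norm_thE_hh (u : ℂ) : ‖thE hh hh (-hh) (-hh) u‖ =
    (‖sin (u - (l / 2 : ℝ) + 3 * l)‖ / ‖sin (u - (l / 2 : ℝ) - 2 * l)‖) *
      (‖sin (u - (-(l / 2) : ℝ) + 3 * l)‖ / ‖sin (u - (-(l / 2) : ℝ) - 2 * l)‖) := by
  rw [thE_ends, norm_mul, norm_div, norm_div]
  unfold hh
  push_cast
  rfl

/-- **the ends are half a pair of rows and `ThN`** -/
theorem ends_ThN {u : ℂ} (h1 : sin (u - (l / 2 : ℝ)) ≠ 0) (h2 : sin (u - (-(l / 2) : ℝ)) ≠ 0) :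
    ‖thE hh hh (-hh) (-hh) u‖ = prN u ^ (1 / 2 : ℝ) * ThN u := by
  rw [norm_thE_hh]
  unfold prN rwN ThN
  rw [← Real.mul_rpow (by positivity) (by positivity)]
  have p1 := norm_pos_iff.2 h1
  have p2 := norm_pos_iff.2 h2
  have e1 : u - 5 * (l : ℂ) / 2 = u - (l / 2 : ℝ) - 2 * l := by
    push_cast
    ring
  have e2 : u - 3 * (l : ℂ) / 2 = u - (-(l / 2) : ℝ) - 2 * l := by
    push_cast
    ring
  have e3 : u - (l : ℂ) / 2 = u - (l / 2 : ℝ) := by push_cast; ring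
  have e4 : u + (l : ℂ) / 2 = u - (-(l / 2) : ℝ) := by push_cast; ring
  rw [e1, e2, e3, e4]
  set A := ‖sin (u - (l / 2 : ℝ) + 3 * l)‖
  set B := ‖sin (u - (-(l / 2) : ℝ) + 3 * l)‖
  set c := ‖sin (u - (l / 2 : ℝ))‖
  set d := ‖sin (u - (-(l / 2) : ℝ))‖
  have hA : 0 ≤ A := norm_nonneg _
  have hB : 0 ≤ B := norm_nonneg _
  have hC : 0 ≤ ‖sin (u - (l / 2 : ℝ) - 2 * l)‖ := norm_nonneg _
  have hD : 0 ≤ ‖sin (u - (-(l / 2) : ℝ) - 2 * l)‖ := norm_nonneg _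
  generalize ‖sin (u - (l / 2 : ℝ) - 2 * l)‖ = C at hC ⊢
  generalize ‖sin (u - (-(l / 2) : ℝ) - 2 * l)‖ = D at hD ⊢
  have hX : 0 ≤ A / C * (B / D) := by positivity
  have e : A ^ 2 / (c * C) * (B ^ 2 / (d * D)) * (c * d / (C * D)) = (A / C * (B / D)) ^ 2 := by
    rcases eq_or_ne C 0 with hC0 | hC0
    · rw [hC0]
      simp
    rcases eq_or_ne D 0 with hD0 | hD0
    · rw [hD0]
      simp
    field_simp
  rw [e, ← Real.rpow_natCast, ← Real.rpow_mul hX]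
  norm_num

/-- **the row factor and the ends** -/
theorem obH_R (hk : k % 2 = 1) (hk3 : 3 ≤ k) (a : Bool) (u : ℂ) :
    (obH k β ex ex0).R a u = Rrow ((k : ℝ) / 2) u * ThN u := by
  obtain ⟨M, rfl⟩ : ∃ M, k = 2 * M + 1 := ⟨k / 2, by omega⟩
  rw [obH_odd hk]
  show 2 * Real.cos l * (∏ i, PBX.rwC (PBH.xH (2 * M + 1) i) u) * (‖thE hh hh (-hh) (-hh) u‖ * 1) = _
  have e1 : ∏ i, PBX.rwC (PBH.xH (2 * M + 1) i) u = prN u ^ M := by
    have h := (cnt_xH hk).pr fun x => ((PBX.rwC x u : ℝ) : ℂ)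
    rw [pow_zero, one_mul, show (2 * M + 1 - 1) / 2 = M by omega] at h
    have h2 : ((∏ i, PBX.rwC (PBH.xH (2 * M + 1) i) u : ℝ) : ℂ) = ((prN u ^ M : ℝ) : ℂ) := by
      rw [ofReal_prod, h, rwC_pos, rwC_neg]
      unfold prN
      push_cast
      rw [mul_pow]
    exact ofReal_injective h2
  rw [e1, mul_one]
  unfold Rrow
  by_cases h1 : sin (u - (l / 2 : ℝ)) = 0
  · have h0 : prN u = 0 := by
      unfold prN rwN
      rw [h1]
      simp
    rw [h0, zero_pow (by omega), Real.zero_rpow (by positivity)]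
    ring
  by_cases h2 : sin (u - (-(l / 2) : ℝ)) = 0
  · have h0 : prN u = 0 := by
      unfold prN rwN
      rw [h2]
      simp
    rw [h0, zero_pow (by omega), Real.zero_rpow (by positivity)]
    ring
  rw [ends_ThN h1 h2]
  have e2 : (((2 * M + 1 : ℕ) : ℝ)) / 2 = M + 1 / 2 := by
    push_cast
    ring
  rw [e2, Real.rpow_add' (prN_nonneg u) (by positivity), Real.rpow_natCast]
  ring

/-! ### the geometry -/

theorem hok_zero {B0 N0 d b A : ℝ} (h1 : 0 ≤ B0) (h2 : 0 ≤ N0) (h3 : 0 ≤ d) (h4 : 0 ≤ A) :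
    PotH.HOk B0 N0 d b A (fun _ _ => 0) fun _ _ => 0 where
  d _ t := hasDerivAt_const t 0
  c _ := continuous_const
  le _ t := by rw [abs_zero]; exact h1
  en _ T hT := by
    simp only [ne_eq, OfNat.ofNat_ne_zero, not_false_eq_true, zero_pow, add_zero, intervalIntegral.integral_zero]
    positivity
  ext _ := by
    have h0 : NUOC.O 0 A (fun _ : ℝ => (0 : ℝ)) := ⟨continuous_const, fun _ => by rw [abs_zero]; exact h4⟩
    have hs : ∀ j, NUOC.O j A (fun _ : ℝ => (0 : ℝ)) → NUOC.O (j + 1) A (fun _ : ℝ => (0 : ℝ)) := fun j hj =>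
      ⟨fun _ => by rw [abs_zero]; exact h4, fun _ => 0, fun t => hasDerivAt_const t 0, hj⟩
    exact NUR2.Ext.of_O (hs 3 (hs 2 (hs 1 (hs 0 h0))))

/-- the bulk exponent -/
theorem MF_seaH (s : ℝ) : NUSea.MF s = s ^ 2 * EMFH := by
  unfold NUSea.MF EMFH
  rw [NUSea.P_seaH, NUSea.v_seaH]

/-- **the geometry, from the cutoff** -/
theorem gOk_of_cut {ex ex0 : List ℂ} (hcut : ∀ ep : ℝ, 0 < ep → ep ≤ 1 / 100 → ∀ e1 : ℝ, 0 < e1 → e1 ≤ 1 / 100 →
    ∀ J : ℝ, 0 ≤ J → ∃ C0 : ℝ, 1 ≤ C0 ∧ ∃ m0 : ℕ, ∀ m ≥ m0, ∃ cr Bc Bc' : ℝ → ℝ,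
      PotH.CutR ep C0 ((1 - e1) * Tb (Real.log m)) m cr Bc Bc' ∧
      ∀ t, ‖((GH ex ex0).B m (4 / 3 * (1 - ep))).φ (NUO.pA (etaC e1 J m m) t)‖ ≤ cr t) :
    PBO.GOk (GH ex ex0) where
  nn := GH_nn ex ex0
  pot := by
    refine ⟨0, 0, le_rfl, le_rfl, fun ep hep hep1 e1 he1 he11 J hJ => ?_⟩
    obtain ⟨m1, hm1, hcur⟩ := curOKC he1 he11 hJ hep
    refine ⟨0, max m1 3, fun m hm => ⟨fun _ _ => 0, fun _ _ => 0, fun d hd => ?_, fun a t => ?_, ?_⟩⟩
    · exact hok_zero le_rfl le_rfl hd (by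
        have := Real.log_nonneg (show (1 : ℝ) ≤ m by
          have : 3 ≤ m := (le_max_right _ _).trans hm
          exact_mod_cast (by omega : 1 ≤ m))
        positivity)
    · have h3 : 3 ≤ m := (le_max_right _ _).trans hm
      have hc := hcur m ((le_max_left _ _).trans hm) m (by
        have : (0 : ℝ) ≤ m := Nat.cast_nonneg _
        linarith)
      have hT := ThN_nonneg (NUO.pA (etaC e1 J m m) t)
      have hcos := cosl_nonneg
      rw [Real.exp_zero, mul_one]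
      show (obH m (4 / 3 * (1 - ep)) ex ex0).R a _ ≤ _
      by_cases hk : m % 2 = 1
      · have hl := Bd.l_pos
        have h1 := hc.h1 t
        have h2 : ep * l / 4 < l / 2 := by nlinarith
        rw [obH_R hk h3, NUS4C.Rrow_pA _ (lt_of_le_of_lt h1 h2)]
        refine le_of_eq ?_
        congr 3
        ring
      · rw [obH_even hk]
        show (0 : ℝ) ≤ _
        positivity
    · simp
  cut := hcut
  one := ⟨0, le_rfl, fun ep _ _ e1 _ _ J _ => ⟨0, fun m _ r O i => by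
    rw [GH_one, add_zero]⟩⟩
  EM := ⟨0, le_rfl, fun m => by
    rw [MF_seaH, add_zero]
    exact le_rfl⟩
  MF := ⟨0, le_rfl, fun m g => by
    rw [seaG_eq, add_zero]
    exact le_rfl⟩

end ISH

end
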