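import Pool.Agent.PB.OneRT0

/-!
# The sea of the rows `± l / 2`: the one body weights with general cutoffs (helper23)

`M` pairs of rows at `± l / 2` and the ends, cutoffs `φ` (quanta), `φ0` (strings).

* `CutH A M β φ φ0`: bounds of the cutoffs on the lines of the objects;
* **`wF_KB`**: the bounds by kinds `NUGC.KB` of the weights with `2 M + 1` rows of the sea;
* **`one_actF`**, **`one_actFT`**: the one body factor of every object is at most the activity (with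
  the gain of the tent).
-/

set_option autoImplicit false

noncomputable section

open Complex MeasureTheory Set

namespace ISH

open NUP1 NUO
open NUGC hiding cut cut_nonneg parts
open NUHM (Agh)
open PBP (gT gT_nonneg gT_le_Ph exists_M0 cur_gT_le)

/-- **bounds of the cutoffs** `φ` (quanta), `φ0` (strings) on the lines of the objects, `M` pairs -/
structure CutH (A : ℝ) (M : ℕ) (β : ℝ) (φ φ0 : ℂ → ℂ) : Prop where
  L : ∀ jL t : ℝ, 2 ≤ jL → jL ≤ 5 / 2 → ‖φ (posL jL t)‖ ≤ A * cut (2 * M + 1) β t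
  S : ∀ e t : ℝ, 1 / 4 ≤ e → e ≤ 31 / 100 → ‖φ0 (posS e t)‖ ≤ A * cut (2 * M + 1) (4 / 3) t
  V : ∀ j t : ℝ, 1 / 5 ≤ j → j ≤ 2 / 5 → ‖φ (vl ((1 - j) * l) t)‖ ≤ A
  T : ∀ t : ℝ, ‖φ (posT t) * φ (posT t - l) - φ0 (posT t)‖ ≤ A * qT t ^ M
  F : ∀ t : ℝ, ‖φ (posT t) * φ (posT t - l) - φ0 (posT t)‖ ≤ A * cut (2 * M + 1) β t

/-- rows at `± l / 2` and the ends, cutoffs `φ`, `φ0` -/
def obF (M : ℕ) (φ φ0 : ℂ → ℂ) : OB where
  R _ u := Rrow ((M : ℝ) + 1 / 2) u * ThN u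
  φ := φ
  φ0 := φ0

theorem obF_nn (M : ℕ) (φ φ0 : ℂ → ℂ) : (obF M φ φ0).Nn := fun _ u =>
  mul_nonneg (Rrow_nonneg _ u) (ThN_nonneg u)

/-- weight of an object times its mean field, `2 M + 1` rows of the sea -/
def wF (M : ℕ) (φ φ0 : ℂ → ℂ) (jL e ρ : ℝ) (x : Xo) : ℝ :=
  ob1c (obF M φ φ0) jL e ρ x * Real.exp ((2 * M + 1 : ℕ) * mfH (parts jL e ρ x))

section

variable {A : ℝ}

/-! ### `L` -/

theorem wF_L (hA : 0 < A) : ∃ C : ℝ, 0 < C ∧ ∀ (M : ℕ) (β : ℝ) (φ φ0 : ℂ → ℂ),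
    CutH A M β φ φ0 → ∀ (jL e ρ : ℝ) (x : Xo), 2 ≤ jL → jL ≤ 5 / 2 → kd x = .L →
      wF M φ φ0 jL e ρ x ≤ C * cut (2 * M + 1) β (ht x) := by
  have hl := l_pos
  have hpi := Real.pi_pos
  have hcl := cos_l_pos
  have hT := cTh_pos
  refine ⟨(2 * Real.pi)⁻¹ * (2 * Real.cos l) * cTh * A, by positivity,
    fun M β φ φ0 hφ jL e ρ x j2 j3 hx => ?_⟩
  unfold wF
  rw [mfH_L jL e ρ hx]
  unfold ob1c
  rw [hx]
  simp only [obF]
  set t := ht x with ht
  have hR := Rrow_cH (j := jL) (by linarith) (by linarith) (by linarith) (by linarith) M t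
  rw [NUHM.mo_zero j2 (by linarith), NUHM.mc_zero (by rw [abs_le]; constructor <;> linarith), add_zero,
    mul_zero, Real.exp_zero, mul_one, ← posL_eq] at hR
  have hTh : ThN (posL jL t) ≤ cTh := by
    rw [posL_eq]
    exact ThN_le (by linarith) (by linarith) t
  have hTh0 := ThN_nonneg (posL jL t)
  have hph := hφ.L jL t j2 j3
  calc (2 * Real.pi)⁻¹ * (Rrow ((M : ℝ) + 1 / 2) (posL jL t) * ThN (posL jL t) *
        ‖φ (posL jL t)‖) * Real.exp ((2 * M + 1 : ℕ) * cH jL t) =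
      (2 * Real.pi)⁻¹ * (Rrow ((M : ℝ) + 1 / 2) (posL jL t) * Real.exp ((2 * M + 1 : ℕ) * cH jL t)) *
        ThN (posL jL t) * ‖φ (posL jL t)‖ := by ring
    _ ≤ (2 * Real.pi)⁻¹ * (2 * Real.cos l) * cTh * (A * cut (2 * M + 1) β t) := by
        rw [hR]
        gcongr
    _ = _ := by ring

/-! ### strings on `-(1 + e) l` -/

/-- the string, with the ends -/
theorem oSc_F {M : ℕ} {β : ℝ} {φ φ0 : ℂ → ℂ} (hφ : CutH A M β φ φ0) {e : ℝ} (he0 : 1 / 4 ≤ e)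
    (he1 : e ≤ 31 / 100) (t : ℝ) (a : Bool) :
    oSc (obF M φ φ0) a (posS e t) *
      Real.exp ((2 * M + 1 : ℕ) * (cH (2 + e) t + cH (2 + e + 1) t)) ≤
      aS * (2 * Real.cos l) ^ 2 * cTh ^ 2 * Real.exp (-(2 * (2 * M + 1 : ℕ) * Agh e t)) *
        (A * cut (2 * M + 1) (4 / 3) t) := by
  have hR := Rrow_S (e := e) (by linarith) (by linarith) M t
  have h1 : ThN (posS e t) ≤ cTh := by
    rw [posS_eq]
    exact ThN_le (by linarith) (by linarith) t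
  have h2 : ThN (posS e t - l) ≤ cTh := by
    rw [posS_eq, vl_sub_l]
    exact ThN_le (by linarith) (by linarith) t
  have h10 := ThN_nonneg (posS e t)
  have h20 := ThN_nonneg (posS e t - l)
  have hac := aS_pos
  have hcl := cos_l_pos
  have hT := cTh_pos
  have hph := hφ.S e t he0 he1
  unfold oSc obF
  simp only
  calc aS * (Rrow ((M : ℝ) + 1 / 2) (posS e t) * ThN (posS e t) *
        (Rrow ((M : ℝ) + 1 / 2) (posS e t - l) * ThN (posS e t - l))) *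
        ‖φ0 (posS e t)‖ * Real.exp ((2 * M + 1 : ℕ) * (cH (2 + e) t + cH (2 + e + 1) t)) =
      aS * (Rrow ((M : ℝ) + 1 / 2) (posS e t) * Rrow ((M : ℝ) + 1 / 2) (posS e t - l) *
        Real.exp ((2 * M + 1 : ℕ) * (cH (2 + e) t + cH (2 + e + 1) t))) *
        (ThN (posS e t) * ThN (posS e t - l)) * ‖φ0 (posS e t)‖ := by ring
    _ ≤ aS * ((2 * Real.cos l) ^ 2 * Real.exp (-(2 * (2 * M + 1 : ℕ) * Agh e t))) *
        (cTh * cTh) * (A * cut (2 * M + 1) (4 / 3) t) := by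
        rw [hR]
        gcongr
    _ = _ := by ring

theorem wF_S (hA : 0 < A) : ∃ C : ℝ, 0 < C ∧ ∀ (M : ℕ) (β : ℝ) (φ φ0 : ℂ → ℂ),
    CutH A M β φ φ0 → ∀ (jL e ρ : ℝ) (x : Xo),
    1 / 4 ≤ e → e ≤ 31 / 100 → kd x = .S → wF M φ φ0 jL e ρ x ≤ C * cut (2 * M + 1) (4 / 3) (ht x) *
      Real.exp (-(2 * (2 * M + 1 : ℕ) * Agh e (ht x))) := by
  have hac := aS_pos
  have hcl := cos_l_pos
  have hT := cTh_pos
  refine ⟨aS * (2 * Real.cos l) ^ 2 * cTh ^ 2 * A, by positivity,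
    fun M β φ φ0 hφ jL e ρ x he0 he1 hx => ?_⟩
  unfold wF
  rw [mfH_S jL e ρ hx]
  unfold ob1c
  rw [hx]
  simp only
  refine (oSc_F hφ he0 he1 (ht x) (sp x)).trans (le_of_eq ?_)
  ring

/-! ### `Svv` -/

theorem wF_Svv (hA : 0 < A) : ∃ C : ℝ, 0 < C ∧ ∀ (M : ℕ) (β : ℝ) (φ φ0 : ℂ → ℂ),
    CutH A M β φ φ0 → ∀ (jL e ρ : ℝ) (x : Xo),
    1 / 4 ≤ e → e ≤ 31 / 100 → kd x = .Svv →
      wF M φ φ0 jL e ρ x ≤ C * cut (2 * M + 1) (4 / 3) (ht x) := by
  have hac := aS_pos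
  have hcl := cos_l_pos
  have hT := cTh_pos
  have hs5 : 0 < Real.sin (5 * l) := by
    have hl := l_pos
    have hpi : 8 * l = Real.pi := by unfold l; ring
    exact Real.sin_pos_of_pos_of_lt_pi (by linarith) (by linarith)
  refine ⟨aS * (2 * Real.cos l) ^ 2 * cTh ^ 2 * A *
    (4 * Real.cos l ^ 2 * (2 * Real.cos l * cTh * A / Real.sin (5 * l) ^ 2) ^ 2), by positivity,
    fun M β φ φ0 hφ jL e ρ x he0 he1 hx => ?_⟩
  unfold wF
  rw [mfH_Svv jL e ρ hx]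
  unfold ob1c
  rw [hx]
  simp only
  set t := ht x with ht
  have h2 := oSc_F hφ he0 he1 t (sp x)
  have h3 := Rrow_sat (j := e) (by linarith) (by linarith) M t
  have h4 := hφ.V e t (by linarith) (by linarith)
  have h5 : ThN (vl ((1 - e) * l) t) ≤ cTh := ThN_le (by linarith) (by linarith) t
  have h50 := ThN_nonneg (vl ((1 - e) * l) t)
  rw [posP_eq]
  set p := vl ((1 - e) * l) t with hp
  have hR0 := Rrow_nonneg ((M : ℝ) + 1 / 2) p
  have e0 : Real.exp ((2 * M + 1 : ℕ) * (cH (2 + e) t + cH (2 + e + 1) t + (cH e t + (cH e t + 0)))) =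
      Real.exp ((2 * M + 1 : ℕ) * (cH (2 + e) t + cH (2 + e + 1) t)) *
        Real.exp ((2 * M + 1 : ℕ) * cH e t) ^ 2 := by
    rw [← Real.exp_nat_mul, ← Real.exp_add]
    push_cast
    ring_nf
  have e5 : Real.exp (-(2 * (2 * M + 1 : ℕ) * Agh e t)) *
      Real.exp ((2 * M + 1 : ℕ) * Agh e t) ^ 2 = 1 := by
    rw [← Real.exp_nat_mul, ← Real.exp_add, ← Real.exp_zero]
    congr 1
    push_cast
    ring
  rw [e0]
  have hob : (obF M φ φ0).R (!sp x) p = Rrow ((M : ℝ) + 1 / 2) p * ThN p := rfl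
  have hop : (obF M φ φ0).φ p = φ p := rfl
  rw [hob, hop]
  have hoS0 : 0 ≤ oSc (obF M φ φ0) (sp x) (posS e t) := by
    unfold oSc obF
    simp only
    have a1 := Rrow_nonneg ((M : ℝ) + 1 / 2) (posS e t)
    have a2 := Rrow_nonneg ((M : ℝ) + 1 / 2) (posS e t - l)
    have a3 := ThN_nonneg (posS e t)
    have a4 := ThN_nonneg (posS e t - l)
    positivity
  have hcut := cut_nonneg (2 * M + 1) (4 / 3) t
  calc oSc (obF M φ φ0) (sp x) (posS e t) * (4 * Real.cos l ^ 2 *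
        (Rrow ((M : ℝ) + 1 / 2) p * ThN p * ‖φ p‖ / Real.sin (5 * l) ^ 2) ^ 2) *
        (Real.exp ((2 * M + 1 : ℕ) * (cH (2 + e) t + cH (2 + e + 1) t)) *
          Real.exp ((2 * M + 1 : ℕ) * cH e t) ^ 2) =
        (oSc (obF M φ φ0) (sp x) (posS e t) *
          Real.exp ((2 * M + 1 : ℕ) * (cH (2 + e) t + cH (2 + e + 1) t))) *
        (4 * Real.cos l ^ 2 * ((Rrow ((M : ℝ) + 1 / 2) p * Real.exp ((2 * M + 1 : ℕ) * cH e t)) *
          ThN p * ‖φ p‖ / Real.sin (5 * l) ^ 2) ^ 2) := by ring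
    _ = (oSc (obF M φ φ0) (sp x) (posS e t) *
          Real.exp ((2 * M + 1 : ℕ) * (cH (2 + e) t + cH (2 + e + 1) t))) *
        (4 * Real.cos l ^ 2 * ((2 * Real.cos l) *
          ThN p * ‖φ p‖ / Real.sin (5 * l) ^ 2) ^ 2) *
          Real.exp ((2 * M + 1 : ℕ) * Agh e t) ^ 2 := by
        rw [h3]
        ring
    _ ≤ (aS * (2 * Real.cos l) ^ 2 * cTh ^ 2 * Real.exp (-(2 * (2 * M + 1 : ℕ) * Agh e t)) *
        (A * cut (2 * M + 1) (4 / 3) t)) *
        (4 * Real.cos l ^ 2 * ((2 * Real.cos l) *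
          cTh * A / Real.sin (5 * l) ^ 2) ^ 2) *
          Real.exp ((2 * M + 1 : ℕ) * Agh e t) ^ 2 := by
        gcongr
    _ = aS * (2 * Real.cos l) ^ 2 * cTh ^ 2 * (Real.exp (-(2 * (2 * M + 1 : ℕ) * Agh e t)) *
          Real.exp ((2 * M + 1 : ℕ) * Agh e t) ^ 2) *
        (A * cut (2 * M + 1) (4 / 3) t) *
        (4 * Real.cos l ^ 2 * ((2 * Real.cos l) * cTh * A / Real.sin (5 * l) ^ 2) ^ 2) := by ring
    _ = _ := by
        rw [e5]
        ring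

/-! ### `Sv` -/

theorem wF_Sv (hA : 0 < A) : ∃ C : ℝ, 0 < C ∧ ∀ (M : ℕ) (β : ℝ) (φ φ0 : ℂ → ℂ),
    CutH A M β φ φ0 → ∀ (jL e ρ : ℝ) (x : Xo),
    1 / 4 ≤ e → e ≤ 31 / 100 → 0 < ρ → ρ ≤ l / 20 → kd x = .Sv →
      wF M φ φ0 jL e ρ x ≤ C / ρ * cut (2 * M + 1) (4 / 3) (ht x) *
        Real.exp (-((2 * M + 1 : ℕ) * Agh e (ht x)) +
          C * ((2 * M + 1 : ℕ) * ρ * Real.exp (-(8 / 3) * |ht x|))) := by
  have hac := aS_pos
  have hcl := cos_l_pos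
  have hT := cTh_pos
  have hKV := KVc_pos
  have hpi := Real.pi_pos
  have hl := l_pos
  set C1 : ℝ := aS * (2 * Real.cos l) ^ 2 * cTh ^ 2 * A *
    ((2 * Real.cos l * cTh * A) * (8 * Real.pi ^ 2)) with hC1
  have hC10 : 0 < C1 := by positivity
  refine ⟨C1 + KVc, by positivity, fun M β φ φ0 hφ jL e ρ x he0 he1 hρ0 hρ1 hx => ?_⟩
  unfold wF
  rw [mfH_Sv jL e ρ hx]
  unfold ob1c
  rw [hx]
  simp only
  set t := ht x with ht
  set θ : ℝ := 2 * Real.pi * an x with hθ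
  set j : ℝ := e - ρ * Real.cos θ / l with hj
  set t' : ℝ := t + ρ * Real.sin θ with ht'
  have hcos := Real.abs_cos_le_one θ
  have hsin := Real.abs_sin_le_one θ
  have hjl : j * l = e * l - ρ * Real.cos θ := by
    rw [hj]
    field_simp
  have hρc : |ρ * Real.cos θ| ≤ ρ := by
    rw [abs_mul, abs_of_pos hρ0]
    exact mul_le_of_le_one_right hρ0.le hcos
  have hρs : |ρ * Real.sin θ| ≤ ρ := by
    rw [abs_mul, abs_of_pos hρ0]
    exact mul_le_of_le_one_right hρ0.le hsin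
  obtain ⟨d1, d2⟩ := abs_le.1 hρc
  have hj0 : 1 / 5 ≤ j := by
    have : 1 / 5 * l ≤ j * l := by rw [hjl]; nlinarith
    exact le_of_mul_le_mul_right this hl
  have hj1 : j ≤ 2 / 5 := by
    have : j * l ≤ 2 / 5 * l := by rw [hjl]; nlinarith
    exact le_of_mul_le_mul_right this hl
  have hposV : posV e ρ t (an x) = vl ((1 - j) * l) t' := by
    rw [posV_eq]
  have g2 := oSc_F hφ he0 he1 t (sp x)
  have g3 := Rrow_sat (j := j) (by linarith) (by linarith) M t'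
  have g4 := hφ.V j t' hj0 hj1
  have g5 : ‖Kn.cz false true (posV e ρ t (an x) - posS e t)‖ ≤ 8 * Real.pi ^ 2 / ρ ^ 2 := by
    have e1 : posV e ρ t (an x) - posS e t = 2 * l + ρ * Complex.exp (2 * Real.pi * an x * I) := by
      unfold posV
      ring
    have e2 : ‖(ρ : ℂ) * Complex.exp (2 * Real.pi * an x * I)‖ = ρ := by
      rw [norm_mul, Complex.norm_real, Real.norm_of_nonneg hρ0.le,
        show (2 * Real.pi * an x * I : ℂ) = ((2 * Real.pi * an x : ℝ) : ℂ) * I by push_cast; ring,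
        Complex.norm_exp_ofReal_mul_I, mul_one]
    rw [e1]
    have := cz_circle (ζ := ρ * Complex.exp (2 * Real.pi * an x * I))
      (norm_pos_iff.1 (by rw [e2]; exact hρ0)) (by rw [e2]; linarith)
    rwa [e2] at this
  have g6 : ThN (vl ((1 - j) * l) t') ≤ cTh := ThN_le (by linarith) (by linarith) t'
  have g60 := ThN_nonneg (vl ((1 - j) * l) t')
  have hN : (0 : ℝ) ≤ ((2 * M + 1 : ℕ) : ℝ) := Nat.cast_nonneg _
  have g7 : ((2 * M + 1 : ℕ) : ℝ) * Agh j t' ≤ (2 * M + 1 : ℕ) * Agh e t +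
      KVc * ((2 * M + 1 : ℕ) * ρ * Real.exp (-(8 / 3) * |t|)) := by
    have q1 : |t' - t| ≤ ρ := by
      rw [ht', add_sub_cancel_left]
      exact hρs
    have q2 : |j - e| * l ≤ ρ := by
      have : |j - e| * l = |ρ * Real.cos θ| := by
        have e3 : (j - e) * l = -(ρ * Real.cos θ) := by
          rw [sub_mul, hjl]
          ring
        rw [← abs_neg (ρ * Real.cos θ), ← e3, abs_mul, abs_of_pos hl]
      rw [this]
      exact hρc
    have q3 := Agh_lip he0 he1 hj0 hj1 hρ1 q1 q2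
    have q4 := (abs_le.1 q3).2
    calc ((2 * M + 1 : ℕ) : ℝ) * Agh j t' ≤
          (2 * M + 1 : ℕ) * (Agh e t + KVc * (ρ * Real.exp (-(8 / 3) * |t|))) := by
          refine mul_le_mul_of_nonneg_left ?_ hN
          linarith
      _ = _ := by ring
  have e0 : Real.exp ((2 * M + 1 : ℕ) * (cH (2 + e) t + cH (2 + e + 1) t + (cH j t' + 0))) =
      Real.exp ((2 * M + 1 : ℕ) * (cH (2 + e) t + cH (2 + e + 1) t)) *
        Real.exp ((2 * M + 1 : ℕ) * cH j t') := by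
    rw [← Real.exp_add]
    ring_nf
  rw [e0]
  rw [hposV] at g5 ⊢
  set v := vl ((1 - j) * l) t' with hv
  have hob : (obF M φ φ0).R (!sp x) v = Rrow ((M : ℝ) + 1 / 2) v * ThN v := rfl
  have hop : (obF M φ φ0).φ v = φ v := rfl
  rw [hob, hop]
  have hR0 := Rrow_nonneg ((M : ℝ) + 1 / 2) v
  have hcut := cut_nonneg (2 * M + 1) (4 / 3) t
  set X : ℝ := (2 * M + 1 : ℕ) * ρ * Real.exp (-(8 / 3) * |t|) with hX
  have hX0 : 0 ≤ X := by positivity
  calc oSc (obF M φ φ0) (sp x) (posS e t) * (ρ * (Rrow ((M : ℝ) + 1 / 2) v * ThN v *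
        ‖φ v‖) * ‖Kn.cz false true (v - posS e t)‖) *
        (Real.exp ((2 * M + 1 : ℕ) * (cH (2 + e) t + cH (2 + e + 1) t)) *
          Real.exp ((2 * M + 1 : ℕ) * cH j t')) =
        (oSc (obF M φ φ0) (sp x) (posS e t) *
          Real.exp ((2 * M + 1 : ℕ) * (cH (2 + e) t + cH (2 + e + 1) t))) *
        (ρ * ((Rrow ((M : ℝ) + 1 / 2) v * Real.exp ((2 * M + 1 : ℕ) * cH j t')) * ThN v *
          ‖φ v‖) * ‖Kn.cz false true (v - posS e t)‖) := by ring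
    _ = (oSc (obF M φ φ0) (sp x) (posS e t) *
          Real.exp ((2 * M + 1 : ℕ) * (cH (2 + e) t + cH (2 + e + 1) t))) *
        (ρ * ((2 * Real.cos l) * ThN v *
          ‖φ v‖) * ‖Kn.cz false true (v - posS e t)‖) *
          Real.exp ((2 * M + 1 : ℕ) * Agh j t') := by
        rw [g3]
        ring
    _ ≤ (aS * (2 * Real.cos l) ^ 2 * cTh ^ 2 * Real.exp (-(2 * (2 * M + 1 : ℕ) * Agh e t)) *
        (A * cut (2 * M + 1) (4 / 3) t)) *
        (ρ * ((2 * Real.cos l) * cTh * A) * (8 * Real.pi ^ 2 / ρ ^ 2)) *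
          Real.exp ((2 * M + 1 : ℕ) * Agh e t + KVc * X) := by
        gcongr
    _ = C1 / ρ * cut (2 * M + 1) (4 / 3) t *
        Real.exp (-((2 * M + 1 : ℕ) * Agh e t) + KVc * X) := by
        have e6 : Real.exp (-((2 * M + 1 : ℕ) * Agh e t) + KVc * X) =
            Real.exp (-(2 * (2 * M + 1 : ℕ) * Agh e t)) *
              Real.exp ((2 * M + 1 : ℕ) * Agh e t + KVc * X) := by
          rw [← Real.exp_add]
          congr 1
          ring
        rw [e6, hC1]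
        field_simp
        try ring
    _ ≤ (C1 + KVc) / ρ * cut (2 * M + 1) (4 / 3) t *
        Real.exp (-((2 * M + 1 : ℕ) * Agh e t) + (C1 + KVc) * X) := by
        have f1 : C1 ≤ C1 + KVc := by linarith
        have f2 : KVc * X ≤ (C1 + KVc) * X := mul_le_mul_of_nonneg_right (by linarith) hX0
        gcongr

/-! ### `St` -/

/-- weight of `St` times its mean field, for `t ≠ 0` -/
theorem wT_eqF {M : ℕ} {φ φ0 : ℂ → ℂ} {jL e ρ : ℝ} {x : Xo} (hx : kd x = .St) (ht0 : ht x ≠ 0) :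
    wF M φ φ0 jL e ρ x =
      aS * (2 * Real.cos l) ^ 2 * ((qT (ht x))⁻¹ ^ ((M : ℝ) + 1 / 2) *
        (ThN (posT (ht x)) * ThN (posT (ht x) - l)) *
          ‖φ (posT (ht x)) * φ (posT (ht x) - l) - φ0 (posT (ht x))‖) := by
  have hp : parts jL e ρ x = [(sp x, true, posT (ht x))] := by
    unfold parts
    rw [hx]
  have hv : mfH (parts jL e ρ x) = cH (3 / 2) (ht x) + cH (3 / 2 + 1) (ht x) := by
    rw [hp, posT_eq]
    exact @NUSea.O.Cloud.val NUSea.seaH _ _ (@NUSea.O.good_string NUSea.seaH (sp x) (3 / 2) (ht x))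
  unfold wF
  rw [hv]
  unfold ob1c
  rw [hx]
  simp only [obF, Rrow]
  set t := ht x with htd
  have hr := row_T ht0
  have g1 := prN_nonneg (posT t)
  have g2 := prN_nonneg (posT t - l)
  have e1 : prN (posT t) ^ ((M : ℝ) + 1 / 2) * prN (posT t - l) ^ ((M : ℝ) + 1 / 2) *
      Real.exp ((2 * M + 1 : ℕ) * (cH (3 / 2) t + cH (3 / 2 + 1) t)) =
      (qT t)⁻¹ ^ ((M : ℝ) + 1 / 2) := by
    rw [← hr, Real.mul_rpow (mul_nonneg g1 g2) (Real.exp_pos _).le, Real.mul_rpow g1 g2,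
      ← Real.exp_mul]
    congr 2
    push_cast
    ring
  rw [← e1]
  ring

theorem wF_T (hA : 0 < A) : ∃ C : ℝ, 0 < C ∧ ∀ (M : ℕ) (β : ℝ) (φ φ0 : ℂ → ℂ),
    CutH A M β φ φ0 → 0 < β → β ≤ 4 / 3 → ∀ (jL e ρ : ℝ) (x : Xo),
    kd x = .St → wF M φ φ0 jL e ρ x ≤ C * cut (2 * M + 1) β (ht x) := by
  have hac := aS_pos
  have hcl := cos_l_pos
  set K0 : ℝ := 2 * A * Real.exp (8 / 3) + A * Real.exp 4 with hK0
  refine ⟨aS * (2 * Real.cos l) ^ 2 * K0, by positivity, fun M β φ φ0 hφ h0 h1 jL e ρ x hx => ?_⟩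
  rcases eq_or_ne (ht x) 0 with ht0 | ht0
  · -- the weight vanishes
    have e0 : prN (posT (ht x)) = 0 := by
      unfold prN rwN
      have : posT (ht x) - ((-(l / 2) : ℝ) : ℂ) = 0 := by
        rw [ht0]
        unfold posT vl
        push_cast
        ring
      rw [this]
      simp
    have hz : ob1c (obF M φ φ0) jL e ρ x = 0 := by
      unfold ob1c
      rw [hx]
      simp only [obF, Rrow]
      rw [e0, Real.zero_rpow (by positivity)]
      ring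
    unfold wF
    rw [hz, zero_mul]
    have := cut_nonneg (2 * M + 1) β (ht x)
    positivity
  rw [wT_eqF hx ht0, mul_assoc _ K0 _]
  refine mul_le_mul_of_nonneg_left ?_ (by positivity)
  set t := ht x with htd
  have hq := qT_pos ht0
  have hq1 := qT_le_one t
  have hTh0 : 0 ≤ ThN (posT t) * ThN (posT t - l) := mul_nonneg (ThN_nonneg _) (ThN_nonneg _)
  have hTh := ThN_T t
  have hth := tanh_le_qT t
  set Th := ThN (posT t) * ThN (posT t - l) with hThd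
  set br := φ (posT t) * φ (posT t - l) - φ0 (posT t) with hbr
  have hiq : 0 < (qT t)⁻¹ := inv_pos.2 hq
  have s3 : √3 ≤ 4 := by
    rw [Real.sqrt_le_left (by norm_num)]
    norm_num
  -- near bound
  have near : (qT t)⁻¹ ^ ((M : ℝ) + 1 / 2) * Th * ‖br‖ ≤ 2 * A := by
    have hb : ‖br‖ ≤ A * qT t ^ M := hφ.T t
    have e1 : (qT t)⁻¹ ^ ((M : ℝ) + 1 / 2) * qT t ^ M = (qT t)⁻¹ ^ (1 / 2 : ℝ) := by
      rw [Real.rpow_add hiq, Real.rpow_natCast, mul_right_comm, ← mul_pow, inv_mul_cancel₀ hq.ne',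
        one_pow, one_mul]
    have e2 : (qT t)⁻¹ ^ (1 / 2 : ℝ) * Th ≤ 2 := by
      refine (sq_le_sq₀ (by positivity) (by norm_num)).1 ?_
      rw [mul_pow, ← Real.rpow_natCast ((qT t)⁻¹ ^ (1 / 2 : ℝ)), ← Real.rpow_mul hiq.le]
      norm_num
      rw [inv_mul_le_iff₀ hq]
      have hT2 : Th ^ 2 ≤ √3 * qT t := hTh.trans hth
      nlinarith
    calc (qT t)⁻¹ ^ ((M : ℝ) + 1 / 2) * Th * ‖br‖
        ≤ (qT t)⁻¹ ^ ((M : ℝ) + 1 / 2) * Th * (A * qT t ^ M) := by gcongr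
      _ = A * (((qT t)⁻¹ ^ ((M : ℝ) + 1 / 2) * qT t ^ M) * Th) := by ring
      _ = A * ((qT t)⁻¹ ^ (1 / 2 : ℝ) * Th) := by rw [e1]
      _ ≤ A * 2 := by gcongr
      _ = 2 * A := by ring
  have hKp : 0 ≤ A * Real.exp 4 := by positivity
  have hKp2 : 0 ≤ 2 * A * Real.exp (8 / 3) := by positivity
  have hn1 : (1 : ℝ) ≤ (2 * M + 1 : ℕ) := by
    push_cast
    have := Nat.cast_nonneg (α := ℝ) M
    linarith
  have hF := hφ.F t
  rw [← hbr] at hF
  unfold cut at hF ⊢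
  rcases le_total 1 ((2 * M + 1 : ℕ) * Real.exp (-(2 * β) * |t|)) with h2 | h2
  · rw [min_eq_left h2, mul_one]
    have h5 : (1 : ℝ) ≤ Real.exp (8 / 3) := Real.one_le_exp (by norm_num)
    rw [hK0]
    nlinarith
  · rw [min_eq_right h2] at hF ⊢
    set X : ℝ := (2 * M + 1 : ℕ) * Real.exp (-(2 * β) * |t|) with hX
    have hX0 : 0 < X := by
      have := Real.exp_pos (-(2 * β) * |t|)
      have h5 : (0 : ℝ) < (2 * M + 1 : ℕ) := by linarith
      rw [hX]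
      exact mul_pos h5 this
    rcases le_total |t| 1 with h3 | h3
    · -- `X ≥ exp (-8/3)`
      have h4 : Real.exp (-(8 / 3)) ≤ X := by
        have h5 : Real.exp (-(8 / 3)) ≤ Real.exp (-(2 * β) * |t|) := by
          refine Real.exp_le_exp.2 ?_
          have := abs_nonneg t
          nlinarith
        calc Real.exp (-(8 / 3)) ≤ 1 * Real.exp (-(2 * β) * |t|) := by rw [one_mul]; exact h5
          _ ≤ X := mul_le_mul_of_nonneg_right hn1 (Real.exp_pos _).le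
      have h6 : 2 * A ≤ 2 * A * Real.exp (8 / 3) * X := by
        have h7 : Real.exp (8 / 3) * Real.exp (-(8 / 3)) = 1 := by
          rw [← Real.exp_add, add_neg_cancel, Real.exp_zero]
        have h8 := mul_le_mul_of_nonneg_left h4 (Real.exp_pos (8 / 3)).le
        rw [h7] at h8
        calc 2 * A = 2 * A * 1 := by ring
          _ ≤ 2 * A * (Real.exp (8 / 3) * X) := by gcongr
          _ = _ := by ring
      have h9 : 0 ≤ A * Real.exp 4 * X := by positivity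
      rw [hK0, add_mul]
      linarith
    · have hf := qT_far h3
      have hM0 := Nat.cast_nonneg (α := ℝ) M
      -- `(1/q)^(M+1/2) ≤ exp 4`
      have hE : ((M : ℝ) + 1 / 2) * (8 * Real.exp (-(8 / 3) * |t|)) ≤ 4 := by
        have h5 : Real.exp (-(8 / 3) * |t|) ≤ Real.exp (-(2 * β) * |t|) := by
          refine Real.exp_le_exp.2 ?_
          have := abs_nonneg t
          nlinarith
        have h6 : ((M : ℝ) + 1 / 2) * Real.exp (-(8 / 3) * |t|) ≤ ((M : ℝ) + 1 / 2) * Real.exp (-(2 * β) * |t|) :=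
          mul_le_mul_of_nonneg_left h5 (by positivity)
        have h7 : ((M : ℝ) + 1 / 2) * Real.exp (-(2 * β) * |t|) = X / 2 := by
          rw [hX]
          push_cast
          ring
        linarith
      have hr1 : (qT t)⁻¹ ^ ((M : ℝ) + 1 / 2) ≤ Real.exp 4 := by
        have h5 : (qT t)⁻¹ ≤ Real.exp (8 * Real.exp (-(8 / 3) * |t|)) := by
          rw [inv_le_comm₀ hq (Real.exp_pos _), ← Real.exp_neg]
          exact hf
        calc (qT t)⁻¹ ^ ((M : ℝ) + 1 / 2) ≤ Real.exp (8 * Real.exp (-(8 / 3) * |t|)) ^ ((M : ℝ) + 1 / 2) :=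
              Real.rpow_le_rpow hiq.le h5 (by positivity)
          _ = Real.exp (8 * Real.exp (-(8 / 3) * |t|) * ((M : ℝ) + 1 / 2)) := by rw [← Real.exp_mul]
          _ ≤ Real.exp 4 := Real.exp_le_exp.2 (by linarith)
      have hTh1 : Th ≤ 1 := by
        refine (sq_le_sq₀ hTh0 zero_le_one).1 ?_
        refine hTh.trans ?_
        rw [one_pow, div_le_one (Real.cosh_pos t), Real.abs_sinh]
        have := Real.sinh_lt_cosh |t|
        rw [Real.cosh_abs] at this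
        exact this.le
      calc (qT t)⁻¹ ^ ((M : ℝ) + 1 / 2) * Th * ‖br‖ ≤ Real.exp 4 * 1 * (A * X) := by
            gcongr
        _ = A * Real.exp 4 * X := by ring
        _ ≤ K0 * X := by
            refine mul_le_mul_of_nonneg_right ?_ hX0.le
            rw [hK0]
            linarith

/-! ### the five kinds together -/

/-- **the bounds of the five kinds with one constant** -/
theorem wF_KB (hA : 0 < A) : ∃ B0 : ℝ, 0 < B0 ∧ ∀ (M : ℕ) (β : ℝ) (φ φ0 : ℂ → ℂ),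
    CutH A M β φ φ0 → 0 < β → β ≤ 4 / 3 → ∀ (jL e ρ : ℝ) (x : Xo),
    2 ≤ jL → jL ≤ 5 / 2 → 1 / 4 ≤ e → e ≤ 31 / 100 → 0 < ρ → ρ ≤ l / 20 →
      KB B0 (2 * M + 1) β ρ (Agh e (ht x)) 1 (wF M φ φ0 jL e ρ x) (kd x) (ht x) := by
  obtain ⟨C1, p1, h1⟩ := wF_L hA
  obtain ⟨C2, p2, h2⟩ := wF_T hA
  obtain ⟨C3, p3, h3⟩ := wF_Svv hA
  obtain ⟨C4, p4, h4⟩ := wF_S hA
  obtain ⟨C5, p5, h5⟩ := wF_Sv hA
  refine ⟨C1 + C2 + C3 + C4 + C5, by positivity,
    fun M β φ φ0 hφ b0 b1 jL e ρ x j0 j1 e0 e1 r0 r1 => ?_⟩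
  rcases hk : kd x with _ | _ | _ | _ | _
  · exact KB.mono (B0 := C1) p1.le (by linarith) r0 zero_le_one (h1 M β φ φ0 hφ jL e ρ x j0 j1 hk)
  · refine KB.mono (B0 := C2) p2.le (by linarith) r0 zero_le_one ?_
    show wF M φ φ0 jL e ρ x ≤ C2 * (cut (2 * M + 1) β (ht x) * 1)
    rw [mul_one]
    exact h2 M β φ φ0 hφ b0 b1 jL e ρ x hk
  · exact KB.mono (B0 := C4) p4.le (by linarith) r0 zero_le_one (h4 M β φ φ0 hφ jL e ρ x e0 e1 hk)
  · exact KB.mono (B0 := C5) p5.le (by linarith) r0 zero_le_one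
      (h5 M β φ φ0 hφ jL e ρ x e0 e1 r0 r1 hk)
  · exact KB.mono (B0 := C3) p3.le (by linarith) r0 zero_le_one (h3 M β φ φ0 hφ jL e ρ x e0 e1 hk)

end

attribute [local instance] NUSea.seaH

/-- **the one body factor of every object is at most the activity**, any current -/
theorem one_actF {A : ℝ} (hA : 0 < A) {κ : ℝ} (hκ : 0 < κ) (K0 K1 : ℝ) (hK1 : 0 ≤ K1) (k0 : ℕ) :
    ∃ C c : ℝ, 0 < C ∧ 0 < c ∧ ∀ M : ℕ, 1 ≤ M → ∀ P : Par,
      @NUSea.O.ParOK NUSea.seaH P (2 * M + 1) K1 →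
      ∀ slk : ℝ → ℝ, (∀ t, slk t + κ * NUSea.Ph t ≤ 2 * Agh (1 / 4) t) →
      ∀ ep : ℝ, 0 < ep → ep ≤ 1 / 100 → ∀ φ φ0 : ℂ → ℂ, CutH A M (4 / 3 * (1 - ep)) φ φ0 →
      ∀ e1 J : ℝ,
      ∀ T' : ℝ, Tb (Real.log (2 * M + 1 : ℕ)) / (1 - ep) ≤ T' → ∀ h : ℝ → ℝ, (∀ t, 0 ≤ h t) →
      (∀ t, |t| ≤ (1 - 3 * e1) * Tb (Real.log (2 * M + 1 : ℕ)) → J ≤ h t) →
      ∀ (r : ℕ) (O : Fin r → Xo) (i : Fin r),
        ob1c (obF M φ φ0) P.jL (ei P O i) (rr P O i) (O i) *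
          Real.exp ((2 * M + 1 : ℕ) * mfH (cons P O i) +
            (2 * M + 1 : ℕ) * slkK slk (kd (O i)) (ht (O i)) -
            2 * Real.pi * NUO.wK (kd (O i)) * h (ht (O i)) + exc T' (ht (O i)) + K0) *
            colK (((r : ℝ) + 1) ^ k0) (kd (O i)) ≤
          act C 1 c (1 / 10) (k0 + 6) (Real.log (2 * M + 1 : ℕ)) ep e1 J r (ht (O i)) := by
  obtain ⟨B0, hB0, hB⟩ := wF_KB hA
  have hpi := Real.pi_pos
  obtain ⟨C, c, hC, hc, H⟩ := kb_actD hκ (dl := 2 / Real.pi) (by positivity) K0 K1 B0 hK1 hB0 k0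
  refine ⟨C, c, hC, hc, fun M hM P hP slk hslk ep hep hep1 φ φ0 hφ e1 J T' hT' h hh hJ r O i => ?_⟩
  obtain ⟨q0, q1⟩ := @NUSea.O.ei_bd NUSea.seaH P (2 * M + 1) K1 hP r O i
  have hρ0 : 0 < rr P O i := hP.r0 r _
  have hρ1 : rr P O i ≤ l / 20 := hP.r1 r _
  have hA2 := NUMFH.Agh_mono (a := 1 / 4) (a' := ei P O i) (by norm_num) q0 (by linarith) (ht (O i))
  have hs := hslk (ht (O i))
  have hW := hB M (4 / 3 * (1 - ep)) φ φ0 hφ (by linarith) (by linarith) P.jL (ei P O i) (rr P O i)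
    (O i) hP.j1 hP.j2 q0 q1 hρ0 hρ1
  have hPh : @NUSea.P NUSea.seaH (ht (O i)) = NUSea.Ph (ht (O i)) := rfl
  have r2 := hP.r2 r (ht (O i))
  have r3 := hP.r3 r (ht (O i))
  rw [hPh] at r2 r3
  have key := H (2 * M + 1) (by omega) ep hep hep1 e1 J T' hT' r (kd (O i)) (ht (O i)) (rr P O i)
    (NUSea.Ph (ht (O i))) (wF M φ φ0 P.jL (ei P O i) (rr P O i) (O i))
    (Agh (ei P O i) (ht (O i))) (h (ht (O i))) slk (hh _) (hJ _) (Ph_low _) (by linarith) hρ0 r2 r3 hW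
  refine le_trans (le_of_eq ?_) key
  unfold wF
  have e : Real.exp ((2 * M + 1 : ℕ) * mfH (cons P O i) +
            (2 * M + 1 : ℕ) * slkK slk (kd (O i)) (ht (O i)) -
            2 * Real.pi * NUO.wK (kd (O i)) * h (ht (O i)) + exc T' (ht (O i)) + K0) =
      Real.exp ((2 * M + 1 : ℕ) * mfH (parts P.jL (ei P O i) (rr P O i) (O i))) *
        Real.exp ((2 * M + 1 : ℕ) * slkK slk (kd (O i)) (ht (O i)) -
          2 * Real.pi * NUO.wK (kd (O i)) * h (ht (O i)) + exc T' (ht (O i)) + K0) := by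
    rw [← Real.exp_add]
    congr 1
    unfold cons
    ring
  rw [e]
  ring

/-- **the one body factor of every object, the tent kept** -/
theorem one_actFT {A : ℝ} (hA : 0 < A) (K0 : ℝ) (k0 : ℕ) :
    ∃ C c : ℝ, 0 < C ∧ 0 < c ∧ ∀ e1 : ℝ, 0 < e1 → e1 ≤ 1 / 100 → ∃ M0 : ℕ, ∀ M : ℕ, M0 ≤ M → 1 ≤ M →
      ∀ ep : ℝ, 0 < ep → ep ≤ 1 / 100 → ∀ φ φ0 : ℂ → ℂ, CutH A M (4 / 3 * (1 - ep)) φ φ0 →
      ∀ J : ℝ, 0 ≤ J →
      ∀ T' : ℝ, Tb (Real.log (2 * M + 1 : ℕ)) / (1 - ep) ≤ T' →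
      ∀ (r : ℕ) (O : Fin r → Xo) (i : Fin r),
        ob1c (obF M φ φ0) (NUSea.O.par0 (2 * M + 1)).jL
            (ei (NUSea.O.par0 (2 * M + 1)) O i) (rr (NUSea.O.par0 (2 * M + 1)) O i) (O i) *
          Real.exp ((2 * M + 1 : ℕ) * mfH (cons (NUSea.O.par0 (2 * M + 1)) O i) +
            (2 * M + 1 : ℕ) * slkK NUMFH.slkh (kd (O i)) (ht (O i)) -
            2 * Real.pi * NUO.wK (kd (O i)) * hC e1 J (2 * M + 1) (ht (O i)) +
            exc T' (ht (O i)) + K0) *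
            colK (((r : ℝ) + 1) ^ k0) (kd (O i)) ≤
          act C 1 c (1 / 10) (k0 + 6) (Real.log (2 * M + 1 : ℕ)) ep e1 J r (ht (O i)) *
            Real.exp (-gT e1 (Real.log (2 * M + 1 : ℕ)) (ht (O i))) := by
  have hK : 0 ≤ K1c := by
    unfold K1c
    have := l_pos
    positivity
  obtain ⟨C, c, hC', hc, H⟩ := one_actF hA (κ := 1 / 100) (by norm_num) K0 K1c hK k0
  refine ⟨C, c, hC', hc, fun e1 he he1 => ?_⟩
  obtain ⟨M0, hM0⟩ := exists_M0 he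
  refine ⟨M0, fun M hM hM1 ep hep hep1 φ φ0 hφ J hJ T' hT' r O i => ?_⟩
  obtain ⟨g1, g2⟩ := hM0 (2 * M + 1) (by omega)
  have hmp : (0 : ℝ) < ((2 * M + 1 : ℕ) : ℝ) := by positivity
  have hTp : 0 < Tb (Real.log (2 * M + 1 : ℕ)) := by nlinarith
  obtain ⟨slk', hslk'⟩ : ∃ f : ℝ → ℝ, f = fun t => NUMFH.slkh t + 1 / 100 * NUSea.Ph t := ⟨_, rfl⟩
  have key := H M hM1 _ (NUSea.O.parOK_par0 _) slk' (fun t => by
    have h1 := NUMFH.slkh_le t
    rw [hslk']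
    linarith) ep hep hep1 φ φ0 hφ e1 J T' hT' (NUCUR.cur e1 (Tb (Real.log (2 * M + 1 : ℕ))) J)
    (fun t => NUCUR.cur_nonneg hJ t)
    (fun t ht' => (NUCUR.cur_eq he hTp (ht'.trans (by nlinarith))).ge) r O i
  have hcur := cur_gT_le (J := J) he he1 g1 (ht (O i))
  have hsea := gT_le_Ph hmp g2 (ht (O i))
  have hg0 := gT_nonneg e1 (Real.log (2 * M + 1 : ℕ)) (ht (O i))
  have hPh0 : 0 ≤ ((2 * M + 1 : ℕ) : ℝ) * NUSea.Ph (ht (O i)) := by linarith
  have hpi := Real.pi_pos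
  have hob : 0 ≤ ob1c (obF M φ φ0) (NUSea.O.par0 (2 * M + 1)).jL
      (ei (NUSea.O.par0 (2 * M + 1)) O i) (rr (NUSea.O.par0 (2 * M + 1)) O i) (O i) :=
    ob1c_nonneg (obF_nn M φ φ0) _ _ (NUSea.O.rad0_pos _ _ _).le _
  have hcol : 0 ≤ colK (((r : ℝ) + 1) ^ k0) (kd (O i)) := by
    have : (0 : ℝ) ≤ ((r : ℝ) + 1) ^ k0 := by positivity
    cases kd (O i) <;> simp only [colK] <;> first | exact this | exact zero_le_one
  obtain ⟨g, hg⟩ : ∃ g, g = gT e1 (Real.log (2 * M + 1 : ℕ)) (ht (O i)) := ⟨_, rfl⟩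
  rw [← hg] at hcur hsea hg0 ⊢
  obtain ⟨h0, hh0⟩ : ∃ h0, h0 = hC e1 J (2 * M + 1) (ht (O i)) := ⟨_, rfl⟩
  rw [← hh0] at hcur ⊢
  obtain ⟨cu, hcu⟩ : ∃ cu, cu = NUCUR.cur e1 (Tb (Real.log (2 * M + 1 : ℕ))) J (ht (O i)) :=
    ⟨_, rfl⟩
  rw [← hcu] at hcur key
  obtain ⟨mm, hmm⟩ : ∃ mm : ℝ, mm = ((2 * M + 1 : ℕ) : ℝ) := ⟨_, rfl⟩
  rw [← hmm] at hPh0 hsea key ⊢
  have hgc : g ≤ 2 * Real.pi * (h0 - cu) := by
    have h1 : g / (2 * Real.pi) ≤ h0 - cu := by linarith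
    rw [div_le_iff₀ (by positivity)] at h1
    linarith
  have hexp : mm * mfH (cons (NUSea.O.par0 (2 * M + 1)) O i) +
      mm * slkK NUMFH.slkh (kd (O i)) (ht (O i)) -
      2 * Real.pi * NUO.wK (kd (O i)) * h0 + exc T' (ht (O i)) + K0 ≤
      (mm * mfH (cons (NUSea.O.par0 (2 * M + 1)) O i) + mm * slkK slk' (kd (O i)) (ht (O i)) -
      2 * Real.pi * NUO.wK (kd (O i)) * cu + exc T' (ht (O i)) + K0) + -g := by
    rcases hk : kd (O i) with _ | _ | _ | _ | _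
    · simp only [slkK, NUO.wK]
      linarith
    · simp only [slkK, NUO.wK]
      linarith
    · simp only [slkK, NUO.wK, hslk']
      linarith
    · simp only [slkK, NUO.wK, hslk']
      linarith
    · simp only [slkK, NUO.wK]
      linarith
  calc _ ≤ ob1c (obF M φ φ0) (NUSea.O.par0 (2 * M + 1)).jL
            (ei (NUSea.O.par0 (2 * M + 1)) O i) (rr (NUSea.O.par0 (2 * M + 1)) O i) (O i) *
          Real.exp ((mm * mfH (cons (NUSea.O.par0 (2 * M + 1)) O i) +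
            mm * slkK slk' (kd (O i)) (ht (O i)) -
            2 * Real.pi * NUO.wK (kd (O i)) * cu + exc T' (ht (O i)) + K0) + -g) *
            colK (((r : ℝ) + 1) ^ k0) (kd (O i)) := by
        gcongr
    _ = (ob1c (obF M φ φ0) (NUSea.O.par0 (2 * M + 1)).jL
            (ei (NUSea.O.par0 (2 * M + 1)) O i) (rr (NUSea.O.par0 (2 * M + 1)) O i) (O i) *
          Real.exp (mm * mfH (cons (NUSea.O.par0 (2 * M + 1)) O i) +
            mm * slkK slk' (kd (O i)) (ht (O i)) -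
            2 * Real.pi * NUO.wK (kd (O i)) * cu + exc T' (ht (O i)) + K0) *
            colK (((r : ℝ) + 1) ^ k0) (kd (O i))) * Real.exp (-g) := by
        rw [Real.exp_add _ (-g)]
        ring
    _ ≤ _ := mul_le_mul_of_nonneg_right key (Real.exp_pos _).le

end ISH

end
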