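import Pool.Agent.ISH.Def
import Pool.Agent.ISH.OneHW
import Pool.Agent.PB.AsmI

/-!
# The rows `± l / 2`, `k` odd: the one body bounds of the objects (`OneR`, `OneRT`) (helper23)

* `phiH_eq`: the cutoff of the rows `± l / 2` and of the points `W`;
* `cutH_pts`: the cutoffs of the rows and of at most `n0` points with `|re| ≤ l / 5`, `|im| ≤ h0` satisfy
  `CutH`;
* `obH_F`: the one body data of `GH` is `obF`;
* **`oneRT_GHp`**, **`oneRT_GH`**, **`oneR_GH`**: one body factor of an object against the activity (with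
  the gain of the tent), `GH ex ex0` for any such points, `GH [I, -I] []`.
-/

set_option autoImplicit false

noncomputable section

open Complex MeasureTheory Set

namespace ISH

open NUP1 NUO PBX PBR
open NUGC hiding cut cut_nonneg parts
open PBH (xH)
open PBO (PtsZ)
open PBP (gT gT_nonneg)

theorem cntX (M : ℕ) : Cnt (xH (2 * M + 1)) 0 M M := by
  have h := cnt_xH (k := 2 * M + 1) (by omega)
  have e : (2 * M + 1 - 1) / 2 = M := by omega
  rwa [e] at h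

/-! ### the cutoff -/

/-- the cutoff of `M` pairs of rows and of the points `W` -/
theorem phiH_eq (M : ℕ) (β : ℝ) (W : List ℂ) (u : ℂ) :
    NUP1.phi β (List.ofFn (xH (2 * M + 1)) ++ W) u =
      1 - PsiP β u ^ M * (W.map fun x => psi β (u - x)).prod := by
  unfold NUP1.phi PsiP
  rw [List.map_append, List.prod_append, List.map_ofFn, List.prod_ofFn]
  have h := (cntX M).pr fun x => psi β (u - x)
  simp only [Function.comp_apply]
  rw [h, pow_zero, one_mul, ← mul_pow]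
  rw [show u - ((l / 2 : ℝ) : ℂ) = u - (l : ℂ) / 2 by push_cast; rfl,
    show u + ((l / 2 : ℝ) : ℂ) = u - -((l : ℂ) / 2) by push_cast; ring]

/-- the cutoff against the cutoff of the pairs -/
theorem phiH_split (M : ℕ) (β : ℝ) (W : List ℂ) (u : ℂ) :
    NUP1.phi β (List.ofFn (xH (2 * M + 1)) ++ W) u =
      phP M β u + PsiP β u ^ M * NUP1.phi β W u := by
  rw [phiH_eq]
  unfold phP NUP1.phi
  ring

section cutoff

variable {n0 : ℕ} {h0 β : ℝ} {W W0 : List ℂ} {u : ℂ}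

/-- the points in the closed strip -/
theorem stripH (hW : PtsZ n0 h0 W) (hu : |u.re + l / 2| ≤ 13 / 10 * l) :
    ∀ x ∈ W, |(u - x).re + l / 2| ≤ 3 * l / 2 := by
  intro x hx
  obtain ⟨h1, h2⟩ := abs_le.1 hu
  obtain ⟨h3, h4⟩ := abs_le.1 (hW.pt x hx).1
  rw [sub_re, abs_le]
  constructor <;> linarith

theorem PsiP_le_one (hβ0 : 0 < β) (hβ1 : β ≤ 4 / 3) (hu : |u.re + l / 2| ≤ 13 / 10 * l) :
    ‖PsiP β u‖ ≤ 1 := by
  have hl := l_pos
  rw [PsiP_eq']
  exact NURow.norm_Psi_le_one (two_bl hβ0 hβ1)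
    (adm_of_le hβ0 hβ1 (s := 13 / 10 * l) (by positivity) (by linarith)) hu

/-- the product of the cutoff -/
theorem norm_prodH (hβ0 : 0 < β) (hβ1 : β ≤ 4 / 3) (hW : PtsZ n0 h0 W)
    (hu : |u.re + l / 2| ≤ 13 / 10 * l) {q : ℝ} (M : ℕ) (hq : ‖PsiP β u‖ ≤ q) :
    ‖PsiP β u ^ M * (W.map fun x => psi β (u - x)).prod‖ ≤ q ^ M := by
  rw [norm_mul, norm_pow]
  have a1 : ‖PsiP β u‖ ^ M ≤ q ^ M := pow_le_pow_left₀ (norm_nonneg _) hq M
  have a2 := PBO.norm_prod_cs hβ0 hβ1 (stripH hW hu)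
  calc _ ≤ q ^ M * 1 := mul_le_mul a1 a2 (norm_nonneg _) (pow_nonneg ((norm_nonneg _).trans hq) M)
    _ = _ := mul_one _

theorem phiH_two (hβ0 : 0 < β) (hβ1 : β ≤ 4 / 3) (hW : PtsZ n0 h0 W)
    (hu : |u.re + l / 2| ≤ 13 / 10 * l) (M : ℕ) :
    ‖NUP1.phi β (List.ofFn (xH (2 * M + 1)) ++ W) u‖ ≤ 2 := by
  rw [phiH_eq]
  have h := norm_prodH hβ0 hβ1 hW hu M (PsiP_le_one hβ0 hβ1 hu)
  rw [one_pow] at h
  refine (norm_sub_le _ _).trans ?_
  rw [norm_one]
  linarith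

/-- constant of the cutoff -/
def cPH (n0 : ℕ) (h0 : ℝ) : ℝ := 8 / kap (4 / 3) (13 / 10 * l) + 8 * Real.exp (8 / 3 * h0) * n0

theorem kapH_pos : 0 < kap (4 / 3) (13 / 10 * l) := by
  have hl := l_pos
  exact (adm43 (s := 13 / 10 * l) (by positivity) (by linarith)).kap_pos

theorem cPH_ge (n0 : ℕ) (h0 : ℝ) : 8 ≤ cPH n0 h0 := by
  have hk := kapH_pos
  have h8 : 8 ≤ 8 / kap (4 / 3) (13 / 10 * l) := by
    rw [le_div_iff₀ hk]
    linarith [kap_le_one (4 / 3) (13 / 10 * l)]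
  have h2 : 0 ≤ 8 * Real.exp (8 / 3 * h0) * n0 := by positivity
  unfold cPH
  linarith

/-- one exponential against the cutoff -/
theorem exp_le_cut (hβ0 : 0 < β) (M : ℕ) (t : ℝ) :
    Real.exp (-(2 * β) * |t|) ≤ cut (2 * M + 1) β t := by
  have h1 : Real.exp (-(2 * β) * |t|) ≤ 1 := by
    refine Real.exp_le_one_iff.2 ?_
    have := abs_nonneg t
    nlinarith
  have hn1 : (1 : ℝ) ≤ (2 * M + 1 : ℕ) := by
    push_cast
    have := Nat.cast_nonneg (α := ℝ) M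
    linarith
  unfold cut
  refine le_min h1 ?_
  calc Real.exp (-(2 * β) * |t|) = 1 * Real.exp (-(2 * β) * |t|) := (one_mul _).symm
    _ ≤ _ := mul_le_mul_of_nonneg_right hn1 (Real.exp_pos _).le

theorem phiH_cut (hβ0 : 0 < β) (hβ1 : β ≤ 4 / 3) (hh : 0 ≤ h0) (hW : PtsZ n0 h0 W)
    (hu : |u.re + l / 2| ≤ 13 / 10 * l) (M : ℕ) :
    ‖NUP1.phi β (List.ofFn (xH (2 * M + 1)) ++ W) u‖ ≤ cPH n0 h0 * cut (2 * M + 1) β u.im := by
  have hl := l_pos
  rw [phiH_split]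
  have a1 := phP_le_cut hβ0 hβ1 (s := 13 / 10 * l) (by positivity) (by linarith) hu M
  have a2 := PBO.norm_phi_csZ hβ0 hβ1 (stripH hW hu) hh fun x hx => (hW.pt x hx).2
  have a3 : ‖PsiP β u ^ M‖ ≤ 1 := by
    rw [norm_pow]
    exact pow_le_one₀ (norm_nonneg _) (PsiP_le_one hβ0 hβ1 hu)
  have a4 := exp_le_cut hβ0 M u.im
  have hlen : ((W.length : ℕ) : ℝ) ≤ n0 := by exact_mod_cast hW.len
  refine (norm_add_le _ _).trans ?_
  rw [norm_mul]
  have a5 : ‖PsiP β u ^ M‖ * ‖NUP1.phi β W u‖ ≤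
      8 * Real.exp (8 / 3 * h0) * n0 * cut (2 * M + 1) β u.im := by
    calc _ ≤ 1 * (8 * Real.exp (8 / 3 * h0) * (W.length * Real.exp (-(2 * β) * |u.im|))) :=
          mul_le_mul a3 a2 (norm_nonneg _) zero_le_one
      _ ≤ 1 * (8 * Real.exp (8 / 3 * h0) * (n0 * cut (2 * M + 1) β u.im)) := by gcongr
      _ = _ := by ring
  unfold cPH
  linarith

/-- **the cutoffs of the rows `± l / 2` and of at most `n0` points** -/
theorem cutH_pts (hh : 0 ≤ h0) (hβ0 : 0 < β) (hβ1 : β ≤ 4 / 3) (hW : PtsZ n0 h0 W)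
    (hW0 : PtsZ n0 h0 W0) (M : ℕ) :
    CutH (4 * cPH n0 h0) M β (NUP1.phi β (List.ofFn (xH (2 * M + 1)) ++ W))
      (NUP1.phi (4 / 3) (List.ofFn (xH (2 * M + 1)) ++ W0)) := by
  have hl := l_pos
  have hc := cPH_ge n0 h0
  have h43 : (0 : ℝ) < 4 / 3 := by norm_num
  have hT : ∀ t : ℝ, |(posT t).re + l / 2| ≤ 13 / 10 * l := by
    intro t
    rw [PBO.zT_re, show -(1 / 2 * l) + l / 2 = 0 by ring, abs_zero]
    positivity
  have hTl : ∀ t : ℝ, |(posT t - l).re + l / 2| ≤ 13 / 10 * l := by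
    intro t
    rw [PBO.zTl_re, show -(3 / 2 * l) + l / 2 = -l by ring, abs_neg, abs_of_pos hl]
    linarith
  refine ⟨fun jL t j2 j3 => ?_, fun e t e0 e1 => ?_, fun j t j0 j1 => ?_, fun t => ?_, fun t => ?_⟩
  · have hre : (posL jL t).re = (1 - jL) * l := NUO.vl_re _ _
    have him : (posL jL t).im = t := NUO.vl_im _ _
    have h := phiH_cut hβ0 hβ1 hh hW (u := posL jL t) (by
      rw [hre, abs_le]
      constructor <;> nlinarith) M
    rw [him] at h
    refine h.trans ?_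
    have := cut_nonneg (2 * M + 1) β t
    exact mul_le_mul_of_nonneg_right (by linarith) this
  · have hre : (posS e t).re = -((1 + e) * l) := NUO.vl_re _ _
    have him : (posS e t).im = t := NUO.vl_im _ _
    have h := phiH_cut h43 le_rfl hh hW0 (u := posS e t) (by
      rw [hre, abs_le]
      constructor <;> nlinarith) M
    rw [him] at h
    refine h.trans ?_
    have := cut_nonneg (2 * M + 1) (4 / 3) t
    exact mul_le_mul_of_nonneg_right (by linarith) this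
  · have hre : (vl ((1 - j) * l) t).re = (1 - j) * l := NUO.vl_re _ _
    have h := phiH_two hβ0 hβ1 hW (u := vl ((1 - j) * l) t) (by
      rw [hre, abs_le]
      constructor <;> nlinarith) M
    linarith
  · obtain ⟨a1, a2⟩ := norm_PsiP hβ0 hβ1 t
    obtain ⟨a3, -⟩ := norm_PsiP h43 le_rfl t
    have hq := qT_nonneg t
    have hq1 := qT_le_one t
    have hqq : qT t * qT t ≤ qT t := mul_le_of_le_one_right hq hq1
    have n1 := norm_prodH hβ0 hβ1 hW (hT t) M (a1.trans hqq)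
    have n2 := norm_prodH hβ0 hβ1 hW (hTl t) M a2
    have n3 := norm_prodH h43 le_rfl hW0 (hT t) M (a3.trans hqq)
    have hM1 : qT t ^ M ≤ 1 := pow_le_one₀ hq hq1
    have hM0 : 0 ≤ qT t ^ M := pow_nonneg hq M
    rw [phiH_eq, phiH_eq, phiH_eq]
    set AA := PsiP β (posT t) ^ M * (W.map fun x => psi β (posT t - x)).prod
    set BB := PsiP β (posT t - l) ^ M * (W.map fun x => psi β (posT t - l - x)).prod
    set DD := PsiP (4 / 3) (posT t) ^ M * (W0.map fun x => psi (4 / 3) (posT t - x)).prod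
    have e : (1 - AA) * (1 - BB) - (1 - DD) = DD + (AA * BB + (-AA + -BB)) := by ring
    rw [e]
    have k1 := norm_add_le DD (AA * BB + (-AA + -BB))
    have k2 := norm_add_le (AA * BB) (-AA + -BB)
    have k3 := norm_add_le (-AA) (-BB)
    rw [norm_neg, norm_neg] at k3
    rw [norm_mul] at k2
    have k4 : ‖AA‖ * ‖BB‖ ≤ qT t ^ M := by
      calc _ ≤ qT t ^ M * 1 := mul_le_mul n1 (n2.trans hM1) (norm_nonneg _) hM0
        _ = _ := mul_one _
    have k5 : 4 * qT t ^ M ≤ 4 * cPH n0 h0 * qT t ^ M :=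
      mul_le_mul_of_nonneg_right (by linarith) hM0
    linarith
  · have c1 := phiH_two hβ0 hβ1 hW (hT t) M
    have c2 := phiH_cut hβ0 hβ1 hh hW (hTl t) M
    have c3 := phiH_cut h43 le_rfl hh hW0 (hT t) M
    rw [PBO.zTl_im] at c2
    rw [PBO.zT_im] at c3
    refine (norm_sub_le _ _).trans ?_
    rw [norm_mul]
    have hcut := cut_nonneg (2 * M + 1) β t
    have c4 : cut (2 * M + 1) (4 / 3) t ≤ cut (2 * M + 1) β t := cut_anti (2 * M + 1) hβ1 t
    have c5 := mul_le_mul c1 c2 (norm_nonneg _) (by norm_num : (0 : ℝ) ≤ 2)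
    have c6 : cPH n0 h0 * cut (2 * M + 1) (4 / 3) t ≤ cPH n0 h0 * cut (2 * M + 1) β t :=
      mul_le_mul_of_nonneg_left c4 (by linarith)
    have c7 : 0 ≤ cPH n0 h0 * cut (2 * M + 1) β t := mul_nonneg (by linarith) hcut
    linarith

end cutoff

/-! ### the rows and the ends -/

theorem rwC_p (u : ℂ) : rwC ((l : ℂ) / 2) u = rwN (l / 2) u := by
  unfold rwC rwN
  push_cast
  rfl

theorem rwC_m (u : ℂ) : rwC (-((l : ℂ) / 2)) u = rwN (-(l / 2)) u := by
  unfold rwC rwN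
  push_cast
  rfl

theorem prod_rwH (M : ℕ) (u : ℂ) : ∏ i, rwC (xH (2 * M + 1) i) u = prN u ^ M := by
  have h := (cntX M).pr fun x => ((rwC x u : ℝ) : ℂ)
  simp only [pow_zero, one_mul] at h
  rw [rwC_p, rwC_m, ← mul_pow] at h
  unfold prN
  exact_mod_cast h

/-- the ends are half a pair of rows and `ThN`, off the zeros of the rows -/
theorem thE_H {u : ℂ} (h1 : sin (u - l / 2) ≠ 0) (h2 : sin (u + l / 2) ≠ 0) :
    ‖NUP1.Leg.thE hh hh (-hh) (-hh) u‖ = prN u ^ (1 / 2 : ℝ) * ThN u := by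
  rw [thE_ends, norm_mul, norm_div, norm_div]
  have e1 : u - hh + 3 * (l : ℂ) = u - ((l / 2 : ℝ) : ℂ) + 3 * l := rfl
  have e2 : u - hh - 2 * (l : ℂ) = u - 5 * l / 2 := by
    unfold hh
    push_cast
    ring
  have e3 : u - -hh + 3 * (l : ℂ) = u - ((-(l / 2) : ℝ) : ℂ) + 3 * l := by
    unfold hh
    push_cast
    ring
  have e4 : u - -hh - 2 * (l : ℂ) = u - 3 * l / 2 := by
    unfold hh
    push_cast
    ring
  have f1 : u - ((l / 2 : ℝ) : ℂ) = u - l / 2 := by push_cast; rfl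
  have f2 : u - ((-(l / 2) : ℝ) : ℂ) = u + l / 2 := by push_cast; ring
  have f3 : u - ((l / 2 : ℝ) : ℂ) - 2 * l = u - 5 * l / 2 := by push_cast; ring
  have f4 : u - ((-(l / 2) : ℝ) : ℂ) - 2 * l = u - 3 * l / 2 := by push_cast; ring
  rw [e1, e2, e3, e4]
  unfold ThN prN rwN
  rw [f3, f4]
  rw [← Real.mul_rpow (by positivity) (by positivity)]
  set a := ‖sin (u - ((l / 2 : ℝ) : ℂ) + 3 * l)‖ with ha
  set b := ‖sin (u - ((-(l / 2) : ℝ) : ℂ) + 3 * l)‖ with hb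
  rw [f1, f2]
  have p1 := norm_pos_iff.2 h1
  have p2 := norm_pos_iff.2 h2
  set s1 := ‖sin (u - l / 2)‖
  set s2 := ‖sin (u + l / 2)‖
  set s5 := ‖sin (u - 5 * l / 2)‖
  set s3 := ‖sin (u - 3 * l / 2)‖
  have key : a ^ 2 / (s1 * s5) * (b ^ 2 / (s2 * s3)) * (s1 * s2 / (s5 * s3)) =
      (a / s5 * (b / s3)) ^ 2 := by
    have q1 : s1 * s1⁻¹ = 1 := mul_inv_cancel₀ p1.ne'
    have q2 : s2 * s2⁻¹ = 1 := mul_inv_cancel₀ p2.ne'
    simp only [div_eq_mul_inv, mul_inv]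
    linear_combination (a ^ 2 * b ^ 2 * (s5⁻¹) ^ 2 * (s3⁻¹) ^ 2) * ((s2 * s2⁻¹) * q1 + q2)
  have hnn : 0 ≤ a / s5 * (b / s3) := by positivity
  rw [key, ← Real.sqrt_eq_rpow, Real.sqrt_sq hnn]

/-- the row factor with the ends -/
theorem rowH {M : ℕ} (hM : 1 ≤ M) (u : ℂ) :
    2 * Real.cos l * (∏ i, rwC (xH (2 * M + 1) i) u) * ‖NUP1.Leg.thE hh hh (-hh) (-hh) u‖ =
      Rrow ((M : ℝ) + 1 / 2) u * ThN u := by
  rw [prod_rwH]
  unfold Rrow
  by_cases h : prN u = 0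
  · rw [h, zero_pow (by omega), Real.zero_rpow (by positivity)]
    ring
  · have h1 : sin (u - l / 2) ≠ 0 := by
      intro e
      refine h ?_
      unfold prN rwN
      rw [show u - ((l / 2 : ℝ) : ℂ) = u - l / 2 by push_cast; rfl, e]
      simp
    have h2 : sin (u + l / 2) ≠ 0 := by
      intro e
      refine h ?_
      unfold prN rwN
      rw [show u - ((-(l / 2) : ℝ) : ℂ) = u + l / 2 by push_cast; ring, e]
      simp
    have hp : 0 < prN u := lt_of_le_of_ne (prN_nonneg u) (Ne.symm h)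
    rw [thE_H h1 h2, Real.rpow_add hp, Real.rpow_natCast]
    ring

/-- **the one body data of `GH` is `obF`** -/
theorem obH_F {M : ℕ} (hM : 1 ≤ M) (β : ℝ) (ex ex0 : List ℂ) :
    obH (2 * M + 1) β ex ex0 = obF M (NUP1.phi β (List.ofFn (xH (2 * M + 1)) ++ ex))
      (NUP1.phi (4 / 3) (List.ofFn (xH (2 * M + 1)) ++ ex0)) := by
  rw [obH_odd (by omega)]
  unfold obF obR
  show OB.mk _ _ _ = OB.mk _ _ _
  congr 1
  funext a u
  rw [← rowH hM]
  show 2 * Real.cos l * (∏ i, rwC (xH (2 * M + 1) i) u) *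
    (‖NUP1.Leg.thE hh hh (-hh) (-hh) u‖ * 1) = _
  ring

/-! ### the join -/

attribute [local instance] NUSea.seaH

theorem crH_etaCH (e1 J : ℝ) {m : ℕ} (hm : 1 ≤ m) (t : ℝ) :
    PotH.crH (etaC e1 J m m) m t = hC e1 J m t := by
  have h1 : (0 : ℝ) < m := by exact_mod_cast hm
  have h2 : 0 < NUSea.P t := NUSea.P_pos t
  unfold PotH.crH etaC
  field_simp

/-- one body weight of nothing -/
theorem ob1c_zero (jL e ρ : ℝ) (x : Xo) :
    ob1c ⟨fun _ _ => 0, fun _ => 0, fun _ => 0⟩ jL e ρ x = 0 := by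
  unfold ob1c oSc
  rcases h : kd x with _ | _ | _ | _ | _ <;> simp

/-- **`OneRT` for the rows `± l / 2`, any points of the cutoffs** -/
theorem oneRT_GHp {n0 : ℕ} {h0 : ℝ} (hh : 0 ≤ h0) {ex ex0 : List ℂ} (hW : PtsZ n0 h0 ex)
    (hW0 : PtsZ n0 h0 ex0) : PBI.OneRT (GH ex ex0) := by
  intro K0 k0
  have hA : 0 < 4 * cPH n0 h0 := by
    have := cPH_ge n0 h0
    linarith
  obtain ⟨C, c, hC', hc, H⟩ := one_actFT hA K0 k0
  refine ⟨C, c, hC', hc, fun ep hep hep1 e1 he he1 J hJ => ?_⟩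
  obtain ⟨M0, H⟩ := H e1 he he1
  refine ⟨2 * M0 + 3, fun m hm r O i => ?_⟩
  by_cases hodd : m % 2 = 1
  · obtain ⟨M, rfl⟩ : ∃ M, m = 2 * M + 1 := ⟨m / 2, by omega⟩
    have hb0 : 0 < 4 / 3 * (1 - ep) := by linarith
    have hb1 : 4 / 3 * (1 - ep) ≤ 4 / 3 := by linarith
    have key := H M (by omega) (by omega) ep hep hep1 _ _ (cutH_pts hh hb0 hb1 hW hW0 M) J hJ
      (TW ep e1 (2 * M + 1)) (PBO.TW_ge hep hep1 he.le (log_nn _)) r O i
    rw [← obH_F (by omega)] at key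
    rw [GH_one]
    unfold PotH.oneEH
    rw [crH_etaCH e1 J (by omega), slkC_eq]
    exact key
  · have e : (GH ex ex0).B m (4 / 3 * (1 - ep)) = ⟨fun _ _ => 0, fun _ => 0, fun _ => 0⟩ :=
      obH_even hodd _
    rw [e, ob1c_zero, zero_mul, zero_mul]
    exact mul_nonneg (act_nonneg hC'.le zero_le_one (log_nn m)) (Real.exp_pos _).le

theorem oneR_GHp {n0 : ℕ} {h0 : ℝ} (hh : 0 ≤ h0) {ex ex0 : List ℂ} (hW : PtsZ n0 h0 ex)
    (hW0 : PtsZ n0 h0 ex0) : PBO.OneR (GH ex ex0) := (oneRT_GHp hh hW hW0).oneR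

/-- **`OneRT` for the geometry of the physical function** -/
theorem oneRT_GH : PBI.OneRT (GH [I, -I] []) :=
  oneRT_GHp (n0 := 2) (h0 := 1) zero_le_one (PtsZ.II le_rfl le_rfl) (PtsZ.nil 2 1)

/-- **`OneR` for the geometry of the physical function** -/
theorem oneR_GH : PBO.OneR (GH [I, -I] []) := oneRT_GH.oneR

end ISH

end
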