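import Pool.Agent.ISH.Def
import Pool.Agent.NUGC.PrefO

/-!
# The own factors of the half quanta at the rows `± l / 2`, `k` odd, ends `l / 2`, `- l / 2` (helper87)

`k = 2 M + 1`.  The one body functions and kernels of `DH ex ex0 ep k` are those of `NURow` (`R1`, `KFs`) with the
cutoffs over the rows and the points `ex`, `ex0`; the bounds without cutoffs are `NUPn.pref_W`, `pref_F`, `pCore`
(type `P`), `NUPrefH.hs_core`, `hp_core`.

* `phQ`, `phS`: the cutoffs; **`CutBH`**: bounds of the cutoffs at the places of the half quanta;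
* `RR_R1`, `X_none`, `Y_none`, `X_S`, `Y_S`, `KF_H`, `KF'_H`: identification;
* **`ownG_H`**: own factors with the sea term and the gain of the type `F`;
* **`own_H`, `ownF_H`**: the fields `own`, `ownF` of `PBO.ClOk` from `CutBH` with constants uniform in `k`;
* **`cutB_H`**: `CutBH` for `ex = [I, -I]`, `ex0 = []`; **`own_GH`**, **`ownF_GH`**.
-/

set_option autoImplicit false
set_option linter.unusedSectionVars false
set_option linter.unusedVariables false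


noncomputable section

namespace ISH

section pc

open NUPn
open NUMF (l l_pos zj)
open NUHM (mo mc hC hD ls Th)
open NURow (R1)

/-- **type `P` without the cutoff** -/
theorem pCore : ∃ C : ℝ, 0 < C ∧ ∀ (σ : Bool) (c : ℂ) (M : ℕ) (τ : ℝ),
    ‖KFs σ M (zj (-(11 / 4)) τ)‖ * ‖R1 c M (zj (1 / 4) τ)‖ *
      Real.exp ((2 * M + 1) * NUPref.MF .p (zj (-(11 / 4)) τ)) ≤ C * ‖c‖ * Real.exp (-|τ|) := by
  obtain ⟨C1, h1, b1⟩ := (lin_wF Nz_F true).exp_le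
  obtain ⟨C2, h2, b2⟩ := (lin_wF Nz_F false).exp_le
  obtain ⟨C3, h3, b3⟩ := (lin_q Nz_Q).exp_le
  have hs := sin2l_pos
  refine ⟨Real.sin (2 * l) * (C1 + C2) * C3, by positivity, fun σ c M τ => ?_⟩
  have hv : (-(11 / 4) + 3 : ℝ) = 1 / 4 := by norm_num
  rw [MF_val (mfG_p (by norm_num : (0:ℝ) < 1 / 8) (away_F τ) σ), hv, mul_add, Real.exp_add]
  have k1 := KFs_cl Nz_F σ M τ
  have k2 := R1_cl Nz_Q c M τ
  obtain ⟨q1, q2⟩ := NUHM.cls_P1 (e := 3 / 4) (by norm_num) (by norm_num) (by norm_num) τ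
  rw [show (-2 - 3 / 4 : ℝ) = -(11 / 4) by norm_num] at q1 q2
  rw [show (1 - 1 / 4 : ℝ) = 3 / 4 by norm_num] at k2
  have e2 : ‖KFs σ M (zj (-(11 / 4)) τ)‖ * ‖R1 c M (zj (1 / 4) τ)‖ *
      (Real.exp ((2 * M + 1) * hcl (-(11 / 4)) τ) * Real.exp ((2 * M + 1) * qcl (1 / 4) τ)) =
      Real.sin (2 * l) * ‖c‖ * (Real.exp (wF σ (-(11 / 4)) τ) *
        Real.exp ((rC (1 / 4) τ - rC (1 / 4 - 2) τ) / 2)) := by
    calc _ = (‖KFs σ M (zj (-(11 / 4)) τ)‖ * Real.exp ((2 * M + 1) * hcl (-(11 / 4)) τ)) *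
          (‖R1 c M (zj (1 / 4) τ)‖ * Real.exp ((2 * M + 1) * qcl (1 / 4) τ)) := by ring
      _ = (Real.sin (2 * l) * Real.exp (wF σ (-(11 / 4)) τ +
            (2 * M + 1) * (hC (-(11 / 4)) τ + hD (-(11 / 4)) τ))) *
          (‖c‖ * Real.exp ((rC (1 / 4) τ - rC (1 / 4 - 2) τ) / 2 +
            (2 * M + 1) * (mo (3 / 4) τ + mc (3 / 4) τ))) := by
          rw [k1, k2]
      _ = Real.sin (2 * l) * ‖c‖ * (Real.exp (wF σ (-(11 / 4)) τ +
            (2 * M + 1) * (hC (-(11 / 4)) τ + hD (-(11 / 4)) τ)) *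
          Real.exp ((rC (1 / 4) τ - rC (1 / 4 - 2) τ) / 2 +
            (2 * M + 1) * (mo (3 / 4) τ + mc (3 / 4) τ))) := by ring
      _ = _ := by
          rw [← Real.exp_add, ← Real.exp_add]
          congr 2
          have : (2 * (M : ℝ) + 1) * (hC (-(11 / 4)) τ + hD (-(11 / 4)) τ) +
              (2 * M + 1) * (mo (3 / 4) τ + mc (3 / 4) τ) = (2 * M + 1) *
              ((hC (-(11 / 4)) τ + mc (3 / 4) τ) + (hD (-(11 / 4)) τ + mo (3 / 4) τ)) := by ring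
          rw [q1, q2] at this
          linarith
  rw [e2]
  have hE := Real.exp_pos (-|τ|)
  have c1 := b1 τ
  have c2 := b2 τ
  have c3 := b3 τ
  rw [neg_one_mul] at c1 c2
  rw [zero_mul, Real.exp_zero, mul_one] at c3
  have c4 : Real.exp (wF σ (-(11 / 4)) τ) ≤ (C1 + C2) * Real.exp (-|τ|) := by
    cases σ
    · nlinarith only [c2, h1, hE, mul_pos h1 hE]
    · nlinarith only [c1, h2, hE, mul_pos h2 hE]
  calc _ ≤ Real.sin (2 * l) * ‖c‖ * (((C1 + C2) * Real.exp (-|τ|)) * C3) := by gcongr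
    _ = _ := by ring

/-- the gain of the type `F` -/
theorem gainF_H : ∃ c : ℝ, 0 < c ∧ ∀ (k : ℕ) (τ : ℝ), Real.exp (-((k : ℝ) * Th (3 / 4) τ)) ≤
    Real.exp (-(c * (k * Real.exp (-(8 / 3) * |τ|)))) := by
  have hpi := Real.pi_pos
  have hs : 0 < Real.sin (NUMFH.ta (3 / 4)) := by
    refine Real.sin_pos_of_pos_of_lt_pi ?_ ?_
    · rw [NUMFH.ta_eq]
      positivity
    · rw [NUMFH.ta_eq]
      linarith
  refine ⟨3 / 2 * Real.sin (NUMFH.ta (3 / 4)), by positivity, fun k τ => ?_⟩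
  rw [Real.exp_le_exp]
  have h := NUMFH.Th_ge' (a := 3 / 4) (by norm_num) (by norm_num) (by norm_num) τ
  have hc : NUMF.ch τ ≤ Real.exp (8 / 3 * |τ|) := by
    unfold NUMF.ch
    have h0 : |8 / 3 * τ| = 8 / 3 * |τ| := by rw [abs_mul, abs_of_pos (by norm_num)]
    rw [← Real.cosh_abs, ← h0, Real.cosh_eq]
    have := Real.exp_le_exp.2 (neg_le_self (abs_nonneg (8 / 3 * τ)))
    linarith
  have hc0 : 0 < NUMF.ch τ := NUMF.ch_pos τ
  have h2 : Real.exp (-(8 / 3) * |τ|) ≤ 1 / NUMF.ch τ := by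
    rw [neg_mul, Real.exp_neg, ← one_div]
    exact one_div_le_one_div_of_le hc0 hc
  have h3 : 3 / 2 * Real.sin (NUMFH.ta (3 / 4)) * Real.exp (-(8 / 3) * |τ|) ≤ Th (3 / 4) τ := by
    refine le_trans ?_ h
    rw [div_eq_mul_one_div (3 / 2 * Real.sin (NUMFH.ta (3 / 4)))]
    exact mul_le_mul_of_nonneg_left h2 (by positivity)
  have h4 := mul_le_mul_of_nonneg_left h3 (Nat.cast_nonneg (α := ℝ) k)
  linarith

end pc

end ISH

namespace ISH

open Complex MeasureTheory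

open NUP1 NUP1.Bd NURow
open NUP1S hiding cc
open NUP1.Leg (thE cc kap)
open NUMF (zj)
open NUGC (cut cut_nonneg clh qh htL htP ownK hR1)
open PBX (RD RX gP Cnt rc0)
open PBH (xH)

/-! ### one row factor -/

theorem re_mul5 (u : ℂ) : u - (l : ℂ) / 2 + 3 * l = u + 5 * l / 2 := by ring

theorem R1_prod (c : ℂ) (M : ℕ) (u : ℂ) :
    c * (rc0 (u - (l : ℂ) / 2) ^ M * rc0 (u - -((l : ℂ) / 2)) ^ M) *
      ((sin (u + 5 * l / 2) / sin (u - 5 * l / 2)) * (sin (u + 7 * l / 2) / sin (u - 3 * l / 2))) =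
    R1 c M u := by
  unfold rc0 NURow.R1 NURow.Rh
  rw [show u - (l : ℂ) / 2 + 3 * l = u + 5 * l / 2 by ring, show u - (l : ℂ) / 2 - 2 * l = u - 5 * l / 2 by ring,
    show u - -((l : ℂ) / 2) + 3 * l = u + 7 * l / 2 by ring, show u - -((l : ℂ) / 2) - 2 * l = u - 3 * l / 2 by ring,
    show u - -((l : ℂ) / 2) = u + l / 2 by ring]
  generalize sin (u + 5 * l / 2) = a5
  generalize sin (u - 5 * l / 2) = b5
  generalize sin (u + 7 * l / 2) = a7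
  generalize sin (u - 3 * l / 2) = b3
  generalize sin (u - (l : ℂ) / 2) = s1
  generalize sin (u + (l : ℂ) / 2) = s2
  rw [div_eq_mul_inv, div_eq_mul_inv, div_eq_mul_inv, div_eq_mul_inv, one_div, one_div, one_div, one_div, mul_inv,
    mul_inv]
  ring

section

variable {m M : ℕ} {x : Fin m → ℂ}

theorem RR_R1 (hx : Cnt x 0 M M) (c : ℂ) (u : ℂ) : RR c x x u * thE hh hh (-hh) (-hh) u = R1 c M u := by
  have e : (hh : ℂ) = (l : ℂ) / 2 := by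
    unfold hh
    push_cast
    rfl
  rw [PBX.RR_rc, hx.pr fun r => rc0 (u - r), PBX.thE_ends, e, pow_zero, one_mul, ← R1_prod,
    show u - (l : ℂ) / 2 + 3 * l = u + 5 * l / 2 by ring, show u - (l : ℂ) / 2 - 2 * l = u - 5 * l / 2 by ring,
    show u - -((l : ℂ) / 2) + 3 * l = u + 7 * l / 2 by ring, show u - -((l : ℂ) / 2) - 2 * l = u - 3 * l / 2 by ring]

theorem thE_symm (p q u : ℂ) : thE q q p p u = thE p p q q u := by
  rw [PBX.thE_ends, PBX.thE_ends, mul_comm]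

theorem RR_R1' (hx : Cnt x 0 M M) (c : ℂ) (u : ℂ) : RR c x x u * thE (-hh) (-hh) hh hh u = R1 c M u := by
  rw [thE_symm]
  exact RR_R1 hx c u

end

/-- the constant `cc` for an even number of rows -/
def c0 : ℂ := Complex.sin (2 * NUP1.l) / Complex.sin NUP1.l

section data

variable {ex ex0 : List ℂ} {ep : ℝ} {M : ℕ}

theorem cntM (M : ℕ) : Cnt (xH (2 * M + 1)) 0 M M := by
  have h := cnt_xH (k := 2 * M + 1) (by omega)
  rwa [show (2 * M + 1 - 1) / 2 = M by omega] at h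

/-- the cutoff of a quantum -/
def phQ (ep : ℝ) (k : ℕ) (ex : List ℂ) (u : ℂ) : ℂ := PBX.ph (NUGC.beC ep) (xH k) (gP (NUGC.beC ep) ex) u

/-- the cutoff of a string -/
def phS (k : ℕ) (ex0 : List ℂ) (u : ℂ) : ℂ := PBX.ph (4 / 3) (xH k) (gP (4 / 3) ex0) u

theorem cc_c0 (M : ℕ) : cc (2 * M + 1 - 1) = c0 := by
  rw [Nat.add_sub_cancel]
  exact cc_even M

theorem X_none (u : ℂ) : (DH ex ex0 ep (2 * M + 1)).X none u = R1 c0 M u * phQ ep (2 * M + 1) ex u := by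
  show RR (cc (2 * M + 1 - 1)) (xH (2 * M + 1)) (xH (2 * M + 1)) u * phQ ep (2 * M + 1) ex u *
    thE hh hh (-hh) (-hh) u = _
  rw [cc_c0, mul_right_comm, RR_R1 (cntM M)]

theorem Y_none (u : ℂ) : (DH ex ex0 ep (2 * M + 1)).Y none u = R1 c0 M u * phQ ep (2 * M + 1) ex u := by
  show RR (cc (2 * M + 1 - 1)) (xH (2 * M + 1)) (xH (2 * M + 1)) u * phQ ep (2 * M + 1) ex u *
    thE (-hh) (-hh) hh hh u = _
  rw [cc_c0, mul_right_comm, RR_R1' (cntM M)]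

theorem X_S (w : ℂ) : (DH ex ex0 ep (2 * M + 1)).X (some .S) w =
    R1 c0 M w * R1 c0 M (w - NUP1.l) * phS (2 * M + 1) ex0 w := by
  show RR (cc (2 * M + 1 - 1)) (xH (2 * M + 1)) (xH (2 * M + 1)) w *
    RR (cc (2 * M + 1 - 1)) (xH (2 * M + 1)) (xH (2 * M + 1)) (w - NUP1.l) * phS (2 * M + 1) ex0 w *
    (thE hh hh (-hh) (-hh) w * thE hh hh (-hh) (-hh) (w - NUP1.l)) = _
  rw [cc_c0, ← RR_R1 (cntM M) c0 w, ← RR_R1 (cntM M) c0 (w - NUP1.l)]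
  ring

theorem Y_S (w : ℂ) : (DH ex ex0 ep (2 * M + 1)).Y (some .S) w =
    R1 c0 M w * R1 c0 M (w - NUP1.l) * phS (2 * M + 1) ex0 w := by
  show RR (cc (2 * M + 1 - 1)) (xH (2 * M + 1)) (xH (2 * M + 1)) w *
    RR (cc (2 * M + 1 - 1)) (xH (2 * M + 1)) (xH (2 * M + 1)) (w - NUP1.l) * phS (2 * M + 1) ex0 w *
    (thE (-hh) (-hh) hh hh w * thE (-hh) (-hh) hh hh (w - NUP1.l)) = _
  rw [cc_c0, ← RR_R1' (cntM M) c0 w, ← RR_R1' (cntM M) c0 (w - NUP1.l)]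
  ring

theorem hh_half : (hh : ℂ) = (l : ℂ) / 2 := by
  unfold hh
  push_cast
  rfl

theorem kr_prod {m : ℕ} {x : Fin m → ℂ} (hx : Cnt x 0 M M) (w : ℂ) :
    ∏ i, (sin (w - x i + 3 * l) / sin (w - x i)) = Kr M w := by
  rw [hx.pr fun r => sin (w - r + 3 * l) / sin (w - r), pow_zero, one_mul]
  unfold NURow.Kr
  rw [show w - (l : ℂ) / 2 + 3 * l = w + 5 * l / 2 by ring, show w - -((l : ℂ) / 2) + 3 * l = w + 7 * l / 2 by ring,
    show w - -((l : ℂ) / 2) = w + l / 2 by ring]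
  rw [div_pow, div_pow, one_div, one_div, inv_pow, inv_pow]
  ring

theorem KF_H (w : ℂ) : (DH ex ex0 ep (2 * M + 1)).KF w = NUPn.KFs false M w := by
  show (RX _ _ _ _ _ _).KF w = KF' M w
  rw [PBX.RX_KF, kr_prod (cntM M), hh_half]
  unfold NURow.KF'
  rw [show w - -((l : ℂ) / 2) + 3 * l = w + 7 * l / 2 by ring]

theorem KF'_H (w : ℂ) : (DH ex ex0 ep (2 * M + 1)).KF' w = NUPn.KFs true M w := by
  show (RX _ _ _ _ _ _).KF' w = KF M w
  rw [PBX.RX_KF', kr_prod (cntM M), hh_half]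
  unfold NURow.KF
  rw [show w - -((l : ℂ) / 2) = w + l / 2 by ring, show w - (l : ℂ) / 2 + 3 * l = w + 5 * l / 2 by ring]

end data

/-! ### the cutoffs -/

/-- bounds of the cutoffs at the places of the half quanta -/
structure CutBH (k : ℕ) (ep A : ℝ) (ex ex0 : List ℂ) : Prop where
  q : ∀ τ : ℝ, ‖phQ ep k ex (zj (1 / 4) τ)‖ ≤ A * cut (Real.log k) ep (-1) τ
  h : ∀ τ : ℝ, ‖phQ ep k ex (zj (5 / 8) τ)‖ ≤ A
  s : ∀ τ : ℝ, ‖phS k ex0 (zj (-(11 / 8)) τ)‖ ≤ A * cut (Real.log k) ep (-1) τ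

/-- the gain of a type -/
def gF (k : ℕ) (t : HT) (τ : ℝ) : ℝ := if t = .F then Real.exp (-((k : ℝ) * NUHM.Th (3 / 4) τ)) else 1

theorem gF_le_one (k : ℕ) (t : HT) (τ : ℝ) : gF k t τ ≤ 1 := by
  unfold gF
  split_ifs
  · rw [Real.exp_le_one_iff]
    have h := NUMFH.Th_nonneg (a := 3 / 4) (by norm_num) (by norm_num) (by norm_num) τ
    have := mul_nonneg (Nat.cast_nonneg (α := ℝ) k) h
    linarith
  · exact le_rfl

/-! ### one species -/

/-- the kernels of the species -/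
structure SpK (σ : Bool) (M : ℕ) (ep : ℝ) (ex ex0 : List ℂ) (kF kP : ℂ → ℂ) (Z Z' : Option O3 → ℂ → ℂ) : Prop where
  F : ∀ w, kF w = NUPn.KFs σ M w
  P : ∀ w, kP w = Complex.sin NUP1.l / Complex.sin (2 * NUP1.l) * (NUPn.KFs σ M w *
    (R1 c0 M (w + 3 * NUP1.l) * phQ ep (2 * M + 1) ex (w + 3 * NUP1.l)))
  Q : ∀ w, Z none w = R1 c0 M w * phQ ep (2 * M + 1) ex w
  S : ∀ w, Z' (some .S) w = R1 c0 M w * R1 c0 M (w - NUP1.l) * phS (2 * M + 1) ex0 w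

theorem zj_q (τ : ℝ) : zj (-(11 / 4)) τ + 3 * (NUP1.l : ℂ) = zj (1 / 4) τ := by
  have := PB0.zp3 (-(11 / 4)) τ
  rwa [show (-(11 / 4) + 3 : ℝ) = 1 / 4 by norm_num] at this

theorem zj_s (τ : ℝ) : zj (5 / 8) τ - 2 * (NUP1.l : ℂ) = zj (-(11 / 8)) τ := by
  have := PB0.zs2 (5 / 8) τ
  rwa [show (5 / 8 - 2 : ℝ) = -(11 / 8) by norm_num] at this

theorem le_key {C D X P : ℝ} (hC : 0 ≤ C) (hP : 1 ≤ P) (hD : 0 ≤ D) (h : X ≤ C * D) : X ≤ C * P * D := by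
  refine h.trans ?_
  have := mul_le_mul_of_nonneg_left hP (mul_nonneg hC hD)
  nlinarith only [this]

/-- **one species and one type** -/
theorem own_one : ∃ C : ℝ, 0 < C ∧ ∀ (σ : Bool) (M : ℕ) (ep A : ℝ) (ex ex0 : List ℂ) (kF kP : ℂ → ℂ)
    (Z Z' : Option O3 → ℂ → ℂ), 1 ≤ A → CutBH (2 * M + 1) ep A ex ex0 → SpK σ M ep ex ex0 kF kP Z Z' →
    ∀ (t : HT) (i : Bool), (i = true → htP t = true) → ∀ τ : ℝ,
    ‖ownK kF kP Z' t (NUP1.vl (htL t) τ)‖ * (if i then ‖Z none (NUP1.vl (htL t) τ) * hR1 0‖ else 1) *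
      Real.exp ((2 * (M : ℝ) + 1) * NUPref.MF (clh t i) (NUP1.vl (htL t) τ)) ≤
      C * ((A * A) * (Real.exp (-|τ|) * (cut (Real.log ((2 * M + 1 : ℕ) : ℝ)) ep (qh t i) τ *
        gF (2 * M + 1) t τ))) := by
  obtain ⟨C1, h1, b1⟩ := NUPn.pref_W
  obtain ⟨C2, h2, b2⟩ := NUPn.pref_F
  obtain ⟨C3, h3, b3⟩ := pCore
  obtain ⟨C4, h4, b4⟩ := NUPrefH.hs_core c0
  obtain ⟨C5, h5, b5⟩ := NUPrefH.hp_core c0 c0
  set P := ‖Complex.sin NUP1.l / Complex.sin (2 * NUP1.l)‖ with hP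
  have hP0 : 0 ≤ P := norm_nonneg _
  have hH0 : 0 ≤ PB0.cH := norm_nonneg _
  have hR0 : 0 ≤ ‖hR1 0‖ := norm_nonneg _
  have hc0 : 0 ≤ ‖c0‖ := norm_nonneg _
  refine ⟨C1 + C2 + P * (C3 * ‖c0‖) + PB0.cH * C4 + PB0.cH * C5 * ‖hR1 0‖, by positivity,
    fun σ M ep A ex ex0 kF kP Z Z' hA hc hK t i hi τ => ?_⟩
  have hA0 : 0 ≤ A := by linarith
  have hAA : A ≤ A * A := le_mul_of_one_le_right hA0 hA
  have hAA1 : 1 ≤ A * A := hA.trans hAA
  set E := Real.exp (-|τ|) with hE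
  have hE0 : 0 < E := Real.exp_pos _
  have p2 : 0 ≤ P * (C3 * ‖c0‖) := by positivity
  have p3 : 0 ≤ PB0.cH * C4 := by positivity
  have p4 : 0 ≤ PB0.cH * C5 * ‖hR1 0‖ := by positivity
  have k0 := cut_nonneg (Real.log ((2 * M + 1 : ℕ) : ℝ)) ep (-1) τ
  set G := cut (Real.log ((2 * M + 1 : ℕ) : ℝ)) ep (-1) τ with hG
  have key : ∀ (C X D : ℝ), 0 ≤ D → C ≤ C1 + C2 + P * (C3 * ‖c0‖) + PB0.cH * C4 + PB0.cH * C5 * ‖hR1 0‖ →
      X ≤ C * D → X ≤ (C1 + C2 + P * (C3 * ‖c0‖) + PB0.cH * C4 + PB0.cH * C5 * ‖hR1 0‖) * D :=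
    fun C X D hD h hX => hX.trans (mul_le_mul_of_nonneg_right h hD)
  have hKH : ∀ w : ℂ, ‖ownK kF kP Z' .H w‖ = PB0.cH * (‖Z' (some .S) (w - 2 * NUP1.l)‖ * ‖NUPn.KFs σ M w‖) := by
    intro w
    show ‖-(2 * Real.pi * NURow.rD (2 * NUP1.l) * NUP1.Bd.wt .S * Z' (some .S) (w - 2 * NUP1.l)) * kF w‖ = _
    rw [hK.F, norm_mul, norm_neg, norm_mul]
    unfold PB0.cH
    ring
  cases t
  · -- W
    cases i
    · have e : cut (Real.log ((2 * M + 1 : ℕ) : ℝ)) ep (qh .W false) τ = 1 := if_pos rfl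
      have e2 : gF (2 * M + 1) .W τ = 1 := if_neg (by simp)
      rw [e, e2, mul_one, mul_one]
      show ‖kF (zj (5 / 4) τ)‖ * 1 * Real.exp ((2 * (M : ℝ) + 1) * NUPref.MF .w (zj (5 / 4) τ)) ≤ _
      rw [mul_one, hK.F]
      refine key C1 _ _ (by positivity) (by linarith) ((b1 σ M τ).trans ?_)
      refine mul_le_mul_of_nonneg_left ?_ h1.le
      exact le_mul_of_one_le_left hE0.le hAA1
    · exact absurd (hi rfl) (by simp [htP])
  · -- F
    cases i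
    · have e : cut (Real.log ((2 * M + 1 : ℕ) : ℝ)) ep (qh .F false) τ = 1 := if_pos rfl
      have e2 : gF (2 * M + 1) .F τ = Real.exp (-((2 * M + 1) * NUHM.Th (3 / 4) τ)) := by
        unfold gF
        rw [if_pos rfl]
        push_cast
        rfl
      rw [e, e2, one_mul]
      show ‖kF (zj (-(11 / 4)) τ)‖ * 1 *
        Real.exp ((2 * (M : ℝ) + 1) * NUPref.MF .w (zj (-(11 / 4)) τ)) ≤ _
      rw [mul_one, hK.F]
      refine key C2 _ _ (by positivity) (by linarith) ((b2 σ M τ).trans ?_)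
      rw [mul_assoc]
      refine mul_le_mul_of_nonneg_left ?_ h2.le
      exact le_mul_of_one_le_left (by positivity) hAA1
    · exact absurd (hi rfl) (by simp [htP])
  · -- P
    cases i
    · have e : cut (Real.log ((2 * M + 1 : ℕ) : ℝ)) ep (qh .P false) τ = G := rfl
      have e2 : gF (2 * M + 1) .P τ = 1 := if_neg (by simp)
      rw [e, e2, mul_one]
      show ‖kP (zj (-(11 / 4)) τ)‖ * 1 *
        Real.exp ((2 * (M : ℝ) + 1) * NUPref.MF .p (zj (-(11 / 4)) τ)) ≤ _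
      rw [mul_one, hK.P, zj_q, norm_mul, norm_mul, norm_mul]
      have u := b3 σ c0 M τ
      have v := hc.q τ
      refine key (P * (C3 * ‖c0‖)) _ _ (by positivity) (by linarith) ?_
      calc P * (‖NUPn.KFs σ M (zj (-(11 / 4)) τ)‖ * (‖R1 c0 M (zj (1 / 4) τ)‖ *
            ‖phQ ep (2 * M + 1) ex (zj (1 / 4) τ)‖)) *
            Real.exp ((2 * (M : ℝ) + 1) * NUPref.MF .p (zj (-(11 / 4)) τ))
          = P * ((‖NUPn.KFs σ M (zj (-(11 / 4)) τ)‖ * ‖R1 c0 M (zj (1 / 4) τ)‖ *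
            Real.exp ((2 * (M : ℝ) + 1) * NUPref.MF .p (zj (-(11 / 4)) τ))) *
            ‖phQ ep (2 * M + 1) ex (zj (1 / 4) τ)‖) := by ring
        _ ≤ P * ((C3 * ‖c0‖ * E) * (A * G)) := by gcongr
        _ = P * (C3 * ‖c0‖) * (A * (E * G)) := by ring
        _ ≤ P * (C3 * ‖c0‖) * (A * A * (E * G)) := by gcongr
    · exact absurd (hi rfl) (by simp [htP])
  · -- H
    have e2 : gF (2 * M + 1) .H τ = 1 := if_neg (by simp)
    have wre : (zj (5 / 8) τ).re = 5 / 8 * NUMF.l := PB0.zj_re _ _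
    have wim : (zj (5 / 8) τ).im = τ := PB0.zj_im _ _
    have v := hc.s τ
    cases i
    · have e : cut (Real.log ((2 * M + 1 : ℕ) : ℝ)) ep (qh .H false) τ = G := by
        have : qh .H false = -3 := rfl
        rw [this, hG]
        unfold NUGC.cut
        rw [if_neg (by norm_num), if_neg (by norm_num)]
      rw [e, e2, mul_one]
      show ‖ownK kF kP Z' .H (zj (5 / 8) τ)‖ * 1 *
        Real.exp ((2 * (M : ℝ) + 1) * NUPref.MF .hs (zj (5 / 8) τ)) ≤ _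
      rw [mul_one, hKH, hK.S, norm_mul, norm_mul]
      have u := b4 σ M _ wre
      rw [wim] at u
      have u2 : ‖NUPn.KFs σ M (zj (5 / 8) τ)‖ * (‖R1 c0 M (zj (5 / 8) τ - 2 * NUP1.l)‖ *
          ‖R1 c0 M (zj (5 / 8) τ - 2 * NUP1.l - NUP1.l)‖) *
          Real.exp ((2 * M + 1) * NUPref.MF .hs (zj (5 / 8) τ)) ≤ C4 * E := by
        refine le_trans u ?_
        refine mul_le_of_le_one_right (by positivity) ?_
        rw [Real.exp_le_one_iff]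
        have h := NUMFH.Th_nonneg (a := 3 / 8) (by norm_num) (by norm_num) (by norm_num) τ
        have : 0 ≤ (2 * (M : ℝ) + 1) * NUHM.Th (3 / 8) τ := by positivity
        linarith
      rw [← zj_s] at v
      refine key (PB0.cH * C4) _ _ (by positivity) (by linarith) ?_
      calc PB0.cH * (‖R1 c0 M (zj (5 / 8) τ - 2 * NUP1.l)‖ * ‖R1 c0 M (zj (5 / 8) τ - 2 * NUP1.l - NUP1.l)‖ *
            ‖phS (2 * M + 1) ex0 (zj (5 / 8) τ - 2 * NUP1.l)‖ * ‖NUPn.KFs σ M (zj (5 / 8) τ)‖) *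
            Real.exp ((2 * (M : ℝ) + 1) * NUPref.MF .hs (zj (5 / 8) τ))
          = PB0.cH * ((‖NUPn.KFs σ M (zj (5 / 8) τ)‖ * (‖R1 c0 M (zj (5 / 8) τ - 2 * NUP1.l)‖ *
            ‖R1 c0 M (zj (5 / 8) τ - 2 * NUP1.l - NUP1.l)‖) *
            Real.exp ((2 * (M : ℝ) + 1) * NUPref.MF .hs (zj (5 / 8) τ))) *
            ‖phS (2 * M + 1) ex0 (zj (5 / 8) τ - 2 * NUP1.l)‖) := by ring
        _ ≤ PB0.cH * ((C4 * E) * (A * G)) := by gcongr
        _ = PB0.cH * C4 * (A * (E * G)) := by ring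
        _ ≤ PB0.cH * C4 * (A * A * (E * G)) := by gcongr
    · have e : cut (Real.log ((2 * M + 1 : ℕ) : ℝ)) ep (qh .H true) τ = G := rfl
      rw [e, e2, mul_one]
      show ‖ownK kF kP Z' .H (zj (5 / 8) τ)‖ * ‖Z none (zj (5 / 8) τ) * hR1 0‖ *
        Real.exp ((2 * (M : ℝ) + 1) * NUPref.MF .hp (zj (5 / 8) τ)) ≤ _
      rw [hKH, hK.S, hK.Q, norm_mul, norm_mul, norm_mul, norm_mul]
      have u := b5 σ M _ wre
      rw [wim] at u
      have v2 := hc.h τ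
      have u2 : ‖NUPn.KFs σ M (zj (5 / 8) τ)‖ * (‖R1 c0 M (zj (5 / 8) τ - 2 * NUP1.l)‖ *
          ‖R1 c0 M (zj (5 / 8) τ - 2 * NUP1.l - NUP1.l)‖) * ‖R1 c0 M (zj (5 / 8) τ)‖ *
          Real.exp ((2 * M + 1) * NUPref.MF .hp (zj (5 / 8) τ)) ≤ C5 * E := u
      rw [← zj_s] at v
      refine key (PB0.cH * C5 * ‖hR1 0‖) _ _ (by positivity) (by linarith) ?_
      calc PB0.cH * (‖R1 c0 M (zj (5 / 8) τ - 2 * NUP1.l)‖ * ‖R1 c0 M (zj (5 / 8) τ - 2 * NUP1.l - NUP1.l)‖ *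
            ‖phS (2 * M + 1) ex0 (zj (5 / 8) τ - 2 * NUP1.l)‖ * ‖NUPn.KFs σ M (zj (5 / 8) τ)‖) *
            (‖R1 c0 M (zj (5 / 8) τ)‖ * ‖phQ ep (2 * M + 1) ex (zj (5 / 8) τ)‖ * ‖hR1 0‖) *
            Real.exp ((2 * (M : ℝ) + 1) * NUPref.MF .hp (zj (5 / 8) τ))
          = PB0.cH * ((‖NUPn.KFs σ M (zj (5 / 8) τ)‖ * (‖R1 c0 M (zj (5 / 8) τ - 2 * NUP1.l)‖ *
            ‖R1 c0 M (zj (5 / 8) τ - 2 * NUP1.l - NUP1.l)‖) * ‖R1 c0 M (zj (5 / 8) τ)‖ *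
            Real.exp ((2 * (M : ℝ) + 1) * NUPref.MF .hp (zj (5 / 8) τ))) *
            ‖phS (2 * M + 1) ex0 (zj (5 / 8) τ - 2 * NUP1.l)‖ *
            ‖phQ ep (2 * M + 1) ex (zj (5 / 8) τ)‖) * ‖hR1 0‖ := by ring
        _ ≤ PB0.cH * ((C5 * E) * (A * G) * A) * ‖hR1 0‖ := by gcongr
        _ = PB0.cH * C5 * ‖hR1 0‖ * (A * A * (E * G)) := by ring

/-! ### the fields `own`, `ownF` -/

theorem spK_true {ex ex0 : List ℂ} {ep : ℝ} {M : ℕ} :
    SpK false M ep ex ex0 (KH ex ex0 ep (2 * M + 1)).kF (KH ex ex0 ep (2 * M + 1)).kP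
      ((KH ex ex0 ep (2 * M + 1)).Z true) ((KH ex ex0 ep (2 * M + 1)).Z false) := by
  rw [KH_odd (by omega)]
  refine ⟨KF_H, fun w => ?_, X_none, Y_S⟩
  show Complex.sin NUP1.l / Complex.sin (2 * NUP1.l) * ((DH ex ex0 ep (2 * M + 1)).KF w *
    (DH ex ex0 ep (2 * M + 1)).Y none (w + 3 * NUP1.l)) = _
  rw [KF_H, Y_none]

theorem spK_false {ex ex0 : List ℂ} {ep : ℝ} {M : ℕ} :
    SpK true M ep ex ex0 (KH ex ex0 ep (2 * M + 1)).kF' (KH ex ex0 ep (2 * M + 1)).kP'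
      ((KH ex ex0 ep (2 * M + 1)).Z false) ((KH ex ex0 ep (2 * M + 1)).Z true) := by
  rw [KH_odd (by omega)]
  refine ⟨KF'_H, fun w => ?_, Y_none, X_S⟩
  show Complex.sin NUP1.l / Complex.sin (2 * NUP1.l) * ((DH ex ex0 ep (2 * M + 1)).KF' w *
    (DH ex ex0 ep (2 * M + 1)).X none (w + 3 * NUP1.l)) = _
  rw [KF'_H, X_none]

/-- **the own factors with the sea term and the gain of the type `F`** -/
theorem ownG_H : ∃ C : ℝ, 0 < C ∧ ∀ (M : ℕ) (ep A : ℝ) (ex ex0 : List ℂ), 1 ≤ A →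
    CutBH (2 * M + 1) ep A ex ex0 → ∀ (a : Bool) (t : HT) (i : Bool), (i = true → htP t = true) → ∀ τ : ℝ,
    (KH ex ex0 ep (2 * M + 1)).own a t i (NUP1.vl (htL t) τ) *
      Real.exp (((2 * M + 1 : ℕ) : ℝ) * NUPref.MF (clh t i) (NUP1.vl (htL t) τ)) ≤
      C * ((A * A) * (Real.exp (-|τ|) * (cut (Real.log ((2 * M + 1 : ℕ) : ℝ)) ep (qh t i) τ *
        gF (2 * M + 1) t τ))) := by
  obtain ⟨C, hC, H⟩ := own_one
  refine ⟨C, hC, fun M ep A ex ex0 hA hc a t i hi τ => ?_⟩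
  have e : ((2 * M + 1 : ℕ) : ℝ) = 2 * (M : ℝ) + 1 := by push_cast; rfl
  rw [e, ← e]
  cases a
  · have := H true M ep A ex ex0 _ _ _ _ hA hc spK_false t i hi τ
    unfold PBQ.KD.own PBQ.KD.ownZ PBQ.KD.ownQ
    simp only [Bool.false_eq_true, if_false]
    rw [← e] at this
    exact this
  · have := H false M ep A ex ex0 _ _ _ _ hA hc spK_true t i hi τ
    unfold PBQ.KD.own PBQ.KD.ownZ PBQ.KD.ownQ
    simp only [if_true]
    rw [← e] at this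
    exact this

theorem own_KZ (a : Bool) (t : HT) (i : Bool) (w : ℂ) : KZ.own a t i w = 0 := by
  have h : KZ.ownZ a t w = 0 := by
    unfold PBQ.KD.ownZ
    cases a <;> cases t <;> simp [ownK, KZ]
  unfold PBQ.KD.own
  rw [h, norm_zero, zero_mul]

theorem eo (k : ℕ) : (∃ M, k = 2 * M + 1) ∨ ¬k % 2 = 1 := by
  by_cases h : k % 2 = 1
  · exact Or.inl ⟨k / 2, by omega⟩
  · exact Or.inr h

/-- **`own`** -/
theorem own_H {ex ex0 : List ℂ} {ep : ℝ} (hc : ∃ A : ℝ, 1 ≤ A ∧ ∀ M : ℕ, CutBH (2 * M + 1) ep A ex ex0) :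
    ∃ C : ℝ, 0 ≤ C ∧ ∃ m0 : ℕ, ∀ m ≥ m0, (KH ex ex0 ep m).OwnLe NUPref.MF m ep C := by
  obtain ⟨C, hC, H⟩ := ownG_H
  obtain ⟨A, hA, hc⟩ := hc
  refine ⟨C * (A * A), by positivity, 0, fun m _ a t i hi τ => ?_⟩
  rcases eo m with ⟨M, rfl⟩ | h
  · refine (H M ep A ex ex0 hA (hc M) a t i hi τ).trans ?_
    have h1 := cut_nonneg (Real.log ((2 * M + 1 : ℕ) : ℝ)) ep (qh t i) τ
    have h2 := mul_le_of_le_one_right h1 (gF_le_one (2 * M + 1) t τ)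
    have h3 : 0 ≤ C * (A * A) * Real.exp (-|τ|) := by positivity
    have h4 := mul_le_mul_of_nonneg_left h2 h3
    linarith only [h4]
  · rw [KH_even h, own_KZ, zero_mul]
    have := cut_nonneg (Real.log m) ep (qh t i) τ
    positivity

/-- **`ownF`** -/
theorem ownF_H {ex ex0 : List ℂ} {ep : ℝ} (hc : ∃ A : ℝ, 1 ≤ A ∧ ∀ M : ℕ, CutBH (2 * M + 1) ep A ex ex0) :
    ∃ C c : ℝ, 0 ≤ C ∧ 0 < c ∧ ∃ m0 : ℕ, ∀ m ≥ m0,
      (KH ex ex0 ep m).OwnFLe NUPref.MF m C fun τ => Real.exp (-(c * (m * Real.exp (-(8 / 3) * |τ|)))) := by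
  obtain ⟨C, hC, H⟩ := ownG_H
  obtain ⟨c, hc0, hg⟩ := gainF_H
  obtain ⟨A, hA, hc⟩ := hc
  refine ⟨C * (A * A), c, by positivity, hc0, 0, fun m _ a i hi τ => ?_⟩
  rcases eo m with ⟨M, rfl⟩ | h
  · refine (H M ep A ex ex0 hA (hc M) a .F i hi τ).trans ?_
    have hq : qh .F i = 1 := by
      unfold qh
      cases i <;> simp [clh, NUSp.qc]
    have hcut : cut (Real.log ((2 * M + 1 : ℕ) : ℝ)) ep (qh .F i) τ = 1 := by
      rw [hq]
      unfold NUGC.cut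
      rw [if_pos rfl]
    have e2 : gF (2 * M + 1) .F τ = Real.exp (-(((2 * M + 1 : ℕ) : ℝ) * NUHM.Th (3 / 4) τ)) := if_pos rfl
    rw [hcut, one_mul, e2]
    have h3 : 0 ≤ C * (A * A) * Real.exp (-|τ|) := by positivity
    have h4 := mul_le_mul_of_nonneg_left (hg (2 * M + 1) τ) h3
    linarith only [h4]
  · rw [KH_even h, own_KZ, zero_mul]
    positivity

/-! ### the bounds of the cutoffs -/

/-- the constant of the cutoff over the rows -/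
def K1c : ℝ := 8 / Real.cos (3 * NUP1.l)

theorem K1c_nonneg : 0 ≤ K1c := by
  have := NUPrefH.cos3_pos
  unfold K1c
  positivity

theorem prod_Psi {m M : ℕ} {x : Fin m → ℂ} (hx : Cnt x 0 M M) (β : ℝ) (u : ℂ) :
    ∏ i, psi β (u - x i) = Psi β u ^ M := by
  rw [hx.pr fun r => psi β (u - r), pow_zero, one_mul]
  unfold NURow.Psi
  rw [sub_neg_eq_add, mul_pow]

theorem ph_le {β : ℝ} (hβ : 0 < β) (hβ' : β ≤ 4 / 3) {m M : ℕ} {x : Fin m → ℂ} (hx : Cnt x 0 M M) {g : ℂ → ℂ}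
    {B : ℝ} (hB0 : 0 ≤ B) {u : ℂ} (hu : |u.re + NUP1.l / 2| ≤ 9 / 8 * NUP1.l)
    (hB : ‖1 - g u‖ ≤ B * min 1 (Real.exp (-(2 * β) * |u.im|))) :
    ‖PBX.ph β x g u‖ ≤ (K1c + (1 + K1c) * B) *
      min 1 (((2 * M + 1 : ℕ) : ℝ) * Real.exp (-(2 * β) * |u.im|)) := by
  have hK := K1c_nonneg
  have h1 := NUPrefH.phN_le hβ hβ' M hu
  have h1' : ‖1 - Psi β u ^ M‖ ≤ K1c * min 1 (M * Real.exp (-(2 * β) * |u.im|)) := h1
  set X := Real.exp (-(2 * β) * |u.im|) with hX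
  have hX0 : 0 < X := Real.exp_pos _
  have hM : (0 : ℝ) ≤ M := Nat.cast_nonneg M
  have e : ((2 * M + 1 : ℕ) : ℝ) = 2 * M + 1 := by push_cast; rfl
  have m1 : min 1 ((M : ℝ) * X) ≤ min 1 (((2 * M + 1 : ℕ) : ℝ) * X) := by
    refine min_le_min le_rfl (mul_le_mul_of_nonneg_right ?_ hX0.le)
    rw [e]
    linarith
  have m2 : min 1 X ≤ min 1 (((2 * M + 1 : ℕ) : ℝ) * X) := by
    refine min_le_min le_rfl (le_mul_of_one_le_left hX0.le ?_)
    rw [e]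
    linarith
  have m3 : min 1 ((M : ℝ) * X) ≤ 1 := min_le_left _ _
  have n1 : ‖Psi β u ^ M‖ ≤ 1 + K1c := by
    have : Psi β u ^ M = 1 - (1 - Psi β u ^ M) := by ring
    rw [this]
    refine (norm_sub_le _ _).trans ?_
    rw [norm_one]
    have := h1'.trans (mul_le_of_le_one_right hK m3)
    linarith
  unfold PBX.ph
  rw [prod_Psi hx]
  have e2 : 1 - Psi β u ^ M * g u = (1 - Psi β u ^ M) + Psi β u ^ M * (1 - g u) := by ring
  rw [e2]
  refine (norm_add_le _ _).trans ?_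
  rw [norm_mul, add_mul]
  refine add_le_add (h1'.trans (mul_le_mul_of_nonneg_left m1 hK)) ?_
  rw [mul_assoc]
  exact mul_le_mul n1 (hB.trans (mul_le_mul_of_nonneg_left m2 hB0)) (norm_nonneg _) (by linarith)

/-- one point on the imaginary axis -/
theorem psi_pt {β : ℝ} (hβ : 0 < β) (hβ' : β ≤ 4 / 3) {u w : ℂ} (hw : w.re = 0) (hw' : |w.im| ≤ 1)
    (hu : |u.re + NUP1.l / 2| ≤ 9 / 8 * NUP1.l) :
    ‖psi β (u - w)‖ ≤ 1 ∧ ‖1 - psi β (u - w)‖ ≤ 8 * Real.exp (8 / 3) * Real.exp (-(2 * β) * |u.im|) := by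
  have hl := NUP1.l_pos
  have r : |(u - w).re + NUP1.l / 2| ≤ 3 * NUP1.l / 2 := by
    rw [sub_re, hw, sub_zero]
    linarith
  refine ⟨NUGC.psi_le_one' hβ hβ' r, (NUGC.one_sub_psi' hβ hβ' r).trans ?_⟩
  rw [mul_assoc, ← Real.exp_add]
  refine mul_le_mul_of_nonneg_left (Real.exp_le_exp.2 ?_) (by norm_num)
  have h1 : |u.im| ≤ |(u - w).im| + 1 := by
    have : u.im = (u - w).im + w.im := by rw [sub_im]; ring
    rw [this]
    exact (abs_add_le _ _).trans (by linarith)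
  nlinarith only [h1, hβ, hβ', abs_nonneg u.im, abs_nonneg (u - w).im]

theorem gP_II {β : ℝ} (hβ : 0 < β) (hβ' : β ≤ 4 / 3) {u : ℂ} (hu : |u.re + NUP1.l / 2| ≤ 9 / 8 * NUP1.l) :
    ‖1 - gP β [I, -I] u‖ ≤ 16 * Real.exp (8 / 3) * min 1 (Real.exp (-(2 * β) * |u.im|)) := by
  obtain ⟨a1, a2⟩ := psi_pt hβ hβ' (w := I) (by simp) (by simp) hu
  obtain ⟨b1, b2⟩ := psi_pt hβ hβ' (w := -I) (by simp) (by simp) hu
  rw [PBX.gP_cons, PBX.gP_cons, PBX.gP_nil, mul_one]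
  set X := Real.exp (-(2 * β) * |u.im|) with hX
  set E := Real.exp (8 / 3) with hE
  have hE1 : 1 ≤ E := Real.one_le_exp (by norm_num)
  set a := psi β (u - I)
  set b := psi β (u - -I)
  have e : 1 - a * b = (1 - a) + a * (1 - b) := by ring
  have d1 : ‖1 - a * b‖ ≤ 16 * E * X := by
    rw [e]
    refine (norm_add_le _ _).trans ?_
    rw [norm_mul]
    have : ‖a‖ * ‖1 - b‖ ≤ 1 * ‖1 - b‖ := mul_le_mul_of_nonneg_right a1 (norm_nonneg _)
    linarith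
  have d2 : ‖1 - a * b‖ ≤ 16 * E := by
    refine (norm_sub_le _ _).trans ?_
    rw [norm_one, norm_mul]
    have := mul_le_one₀ a1 (norm_nonneg _) b1
    linarith
  rcases le_total 1 X with h | h
  · rw [min_eq_left h, mul_one]
    exact d2
  · rw [min_eq_right h]
    exact d1

/-- the constant -/
def AH : ℝ := 1 + (K1c + (1 + K1c) * (16 * Real.exp (8 / 3)))

theorem AH_one : 1 ≤ AH := by
  have := K1c_nonneg
  have := Real.exp_pos (8 / 3)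
  unfold AH
  have : 0 ≤ K1c + (1 + K1c) * (16 * Real.exp (8 / 3)) := by positivity
  linarith

theorem min_cutH {ep β : ℝ} (hβ : 4 / 3 * (1 - ep) ≤ β) {k : ℕ} (hk : 0 < k) (τ : ℝ) :
    min 1 ((k : ℝ) * Real.exp (-(2 * β) * |τ|)) ≤ cut (Real.log k) ep (-1) τ := by
  unfold NUGC.cut
  rw [if_neg (by norm_num)]
  have hk' : (0 : ℝ) < k := by exact_mod_cast hk
  refine min_le_min le_rfl ?_
  rw [show Real.log (k : ℝ) - 8 / 3 * (1 - ep) * |τ| = Real.log k + -(8 / 3 * (1 - ep)) * |τ| by ring,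
    Real.exp_add, Real.exp_log hk']
  refine mul_le_mul_of_nonneg_left (Real.exp_le_exp.2 ?_) hk'.le
  nlinarith only [hβ, abs_nonneg τ]

/-- **`CutBH` for the points `I`, `- I` (quanta), none (strings)** -/
theorem cutB_H {ep : ℝ} (h0 : 0 < ep) (h1 : ep ≤ 1 / 100) (M : ℕ) : CutBH (2 * M + 1) ep AH [I, -I] [] := by
  have hl := NUP1.l_pos
  obtain ⟨-, hβ', hβ⟩ := PBO.beC_bd h0 h1
  have hK := K1c_nonneg
  have hE := Real.exp_pos (8 / 3)
  have hB0 : (0 : ℝ) ≤ 16 * Real.exp (8 / 3) := by positivity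
  have hx : Cnt (xH (2 * M + 1)) 0 M M := cntM M
  have hl' : (NUMF.l : ℝ) = NUP1.l := rfl
  have re_ : ∀ p τ, (zj p τ).re = p * NUP1.l := PB0.zj_re
  have im_ : ∀ p τ, (zj p τ).im = τ := PB0.zj_im
  have k1 : 0 < 2 * M + 1 := by omega
  have hA : K1c + (1 + K1c) * (16 * Real.exp (8 / 3)) ≤ AH := by unfold AH; linarith
  have hbe : 4 / 3 * (1 - ep) ≤ NUGC.beC ep := le_rfl
  refine ⟨fun τ => ?_, fun τ => ?_, fun τ => ?_⟩
  · have hu : |(zj (1 / 4) τ).re + NUP1.l / 2| ≤ 9 / 8 * NUP1.l := by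
      rw [re_, abs_le]
      constructor <;> linarith
    have h := ph_le hβ hβ' hx hB0 hu (gP_II hβ hβ' hu)
    rw [im_] at h
    have h3 := min_cutH (k := 2 * M + 1) hbe k1 τ
    exact h.trans (mul_le_mul hA h3 (le_min zero_le_one (by positivity)) (by linarith [AH_one]))
  · have hu : |(zj (5 / 8) τ).re + NUP1.l / 2| ≤ 9 / 8 * NUP1.l := by
      rw [re_, abs_le]
      constructor <;> linarith
    have h := ph_le hβ hβ' hx hB0 hu (gP_II hβ hβ' hu)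
    refine h.trans ((mul_le_of_le_one_right ?_ (min_le_left _ _)).trans hA)
    positivity
  · have hu : |(zj (-(11 / 8)) τ).re + NUP1.l / 2| ≤ 9 / 8 * NUP1.l := by
      rw [re_, abs_le]
      constructor <;> linarith
    have h := ph_le (β := 4 / 3) (g := gP (4 / 3) []) (by norm_num) le_rfl hx hB0 hu (by
      rw [PBX.gP_nil, sub_self, norm_zero]
      positivity)
    rw [im_] at h
    have h3 := min_cutH (ep := ep) (β := 4 / 3) (k := 2 * M + 1) (by linarith) k1 τ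
    exact h.trans (mul_le_mul hA h3 (le_min zero_le_one (by positivity)) (by linarith [AH_one]))

/-- **the field `own` of `ClOk (GH [I, -I] []) (KH [I, -I] []) (kDH [I, -I] [])`** -/
theorem own_GH : ∀ ep : ℝ, 0 < ep → ep ≤ 1 / 100 → ∃ C : ℝ, 0 ≤ C ∧ ∃ m0 : ℕ, ∀ m ≥ m0,
    (KH [I, -I] [] ep m).OwnLe (GH [I, -I] []).MF m ep C := fun ep h0 h1 =>
  own_H ⟨AH, AH_one, cutB_H h0 h1⟩

/-- **the field `ownF` of `ClOk (GH [I, -I] []) (KH [I, -I] []) (kDH [I, -I] [])`** -/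
theorem ownF_GH : ∀ ep : ℝ, 0 < ep → ep ≤ 1 / 100 → ∃ C c : ℝ, 0 ≤ C ∧ 0 < c ∧ ∃ m0 : ℕ, ∀ m ≥ m0,
    (KH [I, -I] [] ep m).OwnFLe (GH [I, -I] []).MF m C
      fun τ => Real.exp (-(c * (m * Real.exp (-(8 / 3) * |τ|)))) := fun ep h0 h1 =>
  ownF_H ⟨AH, AH_one, cutB_H h0 h1⟩

end ISH

end
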