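import Pool.Agent.ISH.Def
import Pool.Agent.PB.TopR0
import Pool.Agent.NUGC.PrefN

/-!
# The class `W W` at the rows `± l / 2`, `k` odd, at fixed half quanta, with statistics (helper69)

Geometry `GH [I, -I] []`, data `DH [I, -I] [] ep k`, both half quanta in the window `TW`, sea `NUSea.seaH`.

* `kf_le`: the own kernels with the sea term;
* `GH_bs`: the base;
* **`topH`**: the normalised sum over the numbers of quanta of the functional with moduli, with a statistic `Φ i` and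
  a weight `w ≤ Bw e^{K2 r} ∏ exp gT` of the objects, is at most `Bw k ^ e exp (- mTR y)`; the smallness of `ep`,
  `e1`, `exp (-2πJ)` only depends on `A0`, `K2`, `e`;
* **`topH_val`**: the same for the value (no statistic), the sum over `n ≤ M` for every `M ≤ 2 k`;
* `nrH_le`: the normaliser.
-/

set_option autoImplicit false
set_option linter.unusedSectionVars false

noncomputable section

open Complex MeasureTheory Finset
open scoped ENNReal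

namespace ISH

open NUGC PBO PBF PotH PBR PBX
open NUO NUP1 NUCR NUP1S NUP1S.Ab NUP1S.AbC NUP1S.AbG NURow NUP1.Leg NUStabP NUDispW
open NUSea.H0 (Gd)
open PBP (gT)
open PBI (mTR OneRT StatFam topR s4K dk_le statFam_one)

/-! ### the kernels -/

/-- the rows seen by a half quantum -/
theorem rows_Kr {m M : ℕ} {x : Fin m → ℂ} (hx : Cnt x 0 M M) (w : ℂ) :
    ∏ i, (Complex.sin (w - x i + 3 * l) / Complex.sin (w - x i)) = Kr M w := by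
  have h := hx.pr fun r => Complex.sin (w - r + 3 * l) / Complex.sin (w - r)
  rw [pow_zero, one_mul] at h
  rw [h]
  unfold Kr
  have e1 : w - (l : ℂ) / 2 + 3 * l = w + 5 * l / 2 := by ring
  have e2 : w - -((l : ℂ) / 2) + 3 * l = w + 7 * l / 2 := by ring
  have e3 : w - -((l : ℂ) / 2) = w + l / 2 := by ring
  rw [e1, e2, e3, div_pow, div_pow, one_div, one_div, inv_pow, inv_pow]
  ring

/-- the rows -/
theorem DH_cnt (ex ex0 : List ℂ) (ep : ℝ) (M : ℕ) : Cnt (DH ex ex0 ep (2 * M + 1)).x 0 M M := by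
  have h := cnt_xH (k := 2 * M + 1) (by omega)
  have e : (2 * M + 1 - 1) / 2 = M := by omega
  rw [e] at h
  exact h

theorem DH_KF (ex ex0 : List ℂ) (ep : ℝ) (M : ℕ) (w : ℂ) : (DH ex ex0 ep (2 * M + 1)).KF w = NURow.KF' M w := by
  have h := rows_Kr (DH_cnt ex ex0 ep M) w
  unfold DH at h ⊢
  rw [RX_KF]
  refine (congrArg _ h).trans ?_
  unfold NURow.KF' hh
  have e1 : w - ((l / 2 : ℝ) : ℂ) = w - l / 2 := by push_cast; ring
  have e2 : w - -((l / 2 : ℝ) : ℂ) + 3 * l = w + 7 * l / 2 := by push_cast; ring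
  rw [e1, e2]

theorem DH_KF' (ex ex0 : List ℂ) (ep : ℝ) (M : ℕ) (w : ℂ) : (DH ex ex0 ep (2 * M + 1)).KF' w = NURow.KF M w := by
  have h := rows_Kr (DH_cnt ex ex0 ep M) w
  unfold DH at h ⊢
  rw [RX_KF']
  refine (congrArg _ h).trans ?_
  unfold NURow.KF hh
  have e1 : w - -((l / 2 : ℝ) : ℂ) = w + l / 2 := by push_cast; ring
  have e2 : w - ((l / 2 : ℝ) : ℂ) + 3 * l = w + 5 * l / 2 := by push_cast; ring
  rw [e1, e2]

/-- the own kernels with the sea term -/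
theorem kf_le : ∃ C : ℝ, 0 ≤ C ∧ ∀ (ex ex0 : List ℂ) (ep : ℝ) (k : ℕ), k % 2 = 1 → ∀ τ : ℝ,
    ‖(DH ex ex0 ep k).KF (vl (5 / 4 * l) τ)‖ * Real.exp ((k : ℝ) * NUPref.MF .w (vl (5 / 4 * l) τ)) ≤
      C * Real.exp (-|τ|) ∧
    ‖(DH ex ex0 ep k).KF' (vl (5 / 4 * l) τ)‖ * Real.exp ((k : ℝ) * NUPref.MF .w (vl (5 / 4 * l) τ)) ≤
      C * Real.exp (-|τ|) := by
  obtain ⟨C, hC, h⟩ := NUPn.pref_W
  refine ⟨C, hC.le, fun ex ex0 ep k hk τ => ?_⟩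
  obtain ⟨M, rfl⟩ : ∃ M, k = 2 * M + 1 := ⟨k / 2, by omega⟩
  have e : vl (5 / 4 * l) τ = NUMF.zj (5 / 4) τ := rfl
  have e2 : ((2 * M + 1 : ℕ) : ℝ) = 2 * M + 1 := by push_cast; ring
  rw [DH_KF, DH_KF', e, e2]
  exact ⟨h false M τ, h true M τ⟩

/-! ### the base -/

attribute [local instance] NUSea.seaH

/-- **the base at the rows `± l / 2`** -/
theorem GH_bs {k : ℕ} (hk : k % 2 = 1) {ex ex0 : List ℂ} (hex : ∀ w ∈ ex, |w.re| ≤ l / 2)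
    (hex0 : ∀ w ∈ ex0, |w.re| ≤ l / 2) {P : NUO.Par} {ep : ℝ} (hP : ParC P) (hep0 : 0 < ep) (hep : ep ≤ 1 / 100) :
    Bs (XB (DH ex ex0 ep k).X (DH ex ex0 ep k).Y) (fun g => ((GH ex ex0).B k (beC ep)).mul g) P ep
      (2 * beC ep) (Set.range fun i => ((DH ex ex0 ep k).x i).im) := by
  have h := bs_RD (DH_Ok hex hex0 hk hep0 hep) (c0 := 2 * Real.cos l) (REq_RX hex) hP hep0 hep
  refine h.congr (fun _ _ _ => rfl) fun g => ?_
  show obR (DH ex ex0 ep k) ex ex0 (2 * Real.cos l) g = (obH k (beC ep) ex ex0).mul g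
  rw [obH_odd hk]
  unfold DH obR PBX.obX OB.mul
  congr 1
  funext a u
  ring

/-! ### the class `W W` -/

/-- **the class `W W` at the rows `± l / 2` at fixed half quanta in the window** -/
theorem topH (hG : GOk (GH [I, -I] [])) (h1 : OneRT (GH [I, -I] [])) (A0 K2 : ℝ) {e : ℝ} (he : 0 < e) :
    ∃ κ0 : ℝ, 0 < κ0 ∧ κ0 ≤ 1 / 100 ∧
      ∀ (ι : Type*) (ok : ℕ → ι → Prop) (Φ : ι → ℕ → ℕ → InsE), StatFam A0 ok Φ →
      ∀ ep : ℝ, 0 < ep → ep ≤ κ0 → ∀ e1 : ℝ, 0 < e1 → e1 ≤ κ0 →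
      ∀ J : ℝ, 0 ≤ J → Real.exp (-(2 * Real.pi * J)) ≤ κ0 →
      ∀ (c : ℕ → ℂ) (Cn : ℝ), (∀ k, k % 2 = 1 → ‖c k‖ * Real.exp ((k : ℝ) ^ 2 * EMFH) ≤ Cn) →
      ∃ k0 : ℕ, 2 ≤ k0 ∧ ∀ k ≥ k0, k % 2 = 1 →
      (∀ (r : ℕ) (_O : Fin r → Xo), CurB ep (etaC e1 J k k) (etaC' e1 J k k)) ∧
      ∀ y : ℝ × ℝ, |y.1| ≤ TW ep e1 k → |y.2| ≤ TW ep e1 k → ∀ i : ι, ok k i →
      ∀ (w : (r : ℕ) → (Fin r → Xo) → ℝ) (Bw : ℝ), 0 ≤ Bw → (∀ r O, 0 ≤ w r O) →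
      (∀ (r : ℕ) (O : Fin r → Xo), w r O ≤ Bw * Real.exp (K2 * r) *
          Real.exp (∑ i, gT e1 (Real.log k) (ht (O i)))) →
      ENNReal.ofReal ‖c k * preWW (DH [I, -I] [] ep k) y‖ *
        ∑ n ∈ range (2 * k + 1), FE (RZW (DH [I, -I] [] ep k) (vl (5 / 4 * l) y.1)
          (vl (5 / 4 * l) y.2)) (NUSea.O.par0 k) n n (fun _ _ => etaC e1 J k k)
          (fun _ _ => etaC' e1 J k k) (fun r O a b x => ENNReal.ofReal (w r O) *
            Φ i k n r O a b x) ≤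
        ENNReal.ofReal (Bw * ((k : ℝ) ^ e * Real.exp (-mTR y))) := by
  obtain ⟨K, Ca, hK, hCa, hS4⟩ := s4K hG
  obtain ⟨κ0, hκ, hκ1, htop⟩ := topR (G := GH [I, -I] []) (fun m β => GH_nn _ _ _ _) Pool.Agent.NUM3.stabProd
    h1 (K + A0) K2 hCa (e := e / 2) (by linarith)
  obtain ⟨C0, hC0, hkf⟩ := kf_le
  obtain ⟨Cg, hCg, hdk⟩ := dk_le
  refine ⟨κ0, hκ, hκ1, ?_⟩
  intro ι ok Φ hst ep hep hep1 e1 he1 he11 J hJ hJ1 c Cn hc
  obtain ⟨Cst, hCst, m0, hm0, htop⟩ := htop ι ok Φ (hS4 A0 ι ok Φ hst) ep hep hep1 e1 he1 he11 J hJ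
    hJ1
  have hCn : 0 ≤ Cn := (by positivity : (0 : ℝ) ≤ _).trans (hc 1 rfl)
  obtain ⟨m1, hm1⟩ := Filter.eventually_atTop.1
    (((tendsto_rpow_atTop (show (0 : ℝ) < e / 2 by linarith)).comp
      tendsto_natCast_atTop_atTop).eventually_ge_atTop (C0 * C0 * Cg * Cst * Cn))
  refine ⟨max m0 m1, hm0.trans (le_max_left _ _), fun k hk hodd => ?_⟩
  have hk0 : m0 ≤ k := (le_max_left _ _).trans hk
  have hk1 : m1 ≤ k := (le_max_right _ _).trans hk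
  have h1k : 1 ≤ k := by omega
  have hkp : (0 : ℝ) < k := by exact_mod_cast h1k
  obtain ⟨hcur, htop⟩ := htop k hk0
  refine ⟨hcur, fun y hy1 hy2 i hok w Bw hBw hw0 hwB => ?_⟩
  have hep2 : ep ≤ 1 / 100 := hep1.trans hκ1
  have hbs := GH_bs (k := k) hodd (ex := [I, -I]) (ex0 := []) (fun w hw => PBI.II_re hw) (by simp)
    (parM_par0 k).1 hep hep2
  obtain ⟨k1, hk1⟩ : ∃ x, x = ‖(DH [I, -I] [] ep k).KF (vl (5 / 4 * l) y.1)‖ := ⟨_, rfl⟩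
  obtain ⟨k2, hk2⟩ : ∃ x, x = ‖(DH [I, -I] [] ep k).KF' (vl (5 / 4 * l) y.2)‖ := ⟨_, rfl⟩
  have key := htop _ _ _ hbs y hy1 hy2 i hok w Bw hBw hw0 hwB C0 Cg k1 k2
    ‖Dk (vl (5 / 4 * l) y.1 - vl (5 / 4 * l) y.2)‖ hC0 (by rw [hk1]; exact norm_nonneg _)
    (by rw [hk2]; exact norm_nonneg _) (norm_nonneg _)
    (by rw [hk1]; exact (hkf [I, -I] [] ep k hodd y.1).1)
    (by rw [hk2]; exact (hkf [I, -I] [] ep k hodd y.2).2) (hdk y.1 y.2)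
  have e1 : ‖c k * preWW (DH [I, -I] [] ep k) y‖ = ‖c k‖ * (k1 * k2 *
      ‖Dk (vl (5 / 4 * l) y.1 - vl (5 / 4 * l) y.2)‖) := by
    unfold preWW
    rw [norm_mul, norm_mul, norm_mul, hk1, hk2]
  rw [e1, ENNReal.ofReal_mul (norm_nonneg _), mul_assoc]
  refine (mul_le_mul' le_rfl key).trans ?_
  rw [← ENNReal.ofReal_mul (norm_nonneg _)]
  refine ENNReal.ofReal_le_ofReal ?_
  have hEM : (GH [I, -I] []).EM = EMFH := rfl
  have hck := hc k hodd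
  obtain ⟨X0, hX0⟩ : ∃ X0, X0 = Real.exp ((k : ℝ) ^ 2 * EMFH) := ⟨_, rfl⟩
  rw [hEM, ← hX0]
  rw [← hX0] at hck
  have hX00 : 0 ≤ X0 := by
    rw [hX0]
    exact (Real.exp_pos _).le
  have hpow : (k : ℝ) ^ e = (k : ℝ) ^ (e / 2) * (k : ℝ) ^ (e / 2) := by
    rw [← Real.rpow_add hkp]
    congr 1
    ring
  have hbig : C0 * C0 * Cg * Cst * Cn ≤ (k : ℝ) ^ (e / 2) := hm1 k ‹m1 ≤ k›
  have hp0 : 0 ≤ (k : ℝ) ^ (e / 2) := by positivity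
  have hm : Real.exp (-(2 * |y.1| + 2 * |y.2| + |y.1 - y.2| / 2)) = Real.exp (-mTR y) := rfl
  rw [hm]
  have hE0 := (Real.exp_pos (-mTR y)).le
  calc ‖c k‖ * (C0 * C0 * Cg * Bw * (Cst * (k : ℝ) ^ (e / 2) * X0 * Real.exp (-mTR y)))
      = Bw * (C0 * C0 * Cg * Cst * (‖c k‖ * X0)) * (k : ℝ) ^ (e / 2) * Real.exp (-mTR y) := by ring
    _ ≤ Bw * (C0 * C0 * Cg * Cst * Cn) * (k : ℝ) ^ (e / 2) * Real.exp (-mTR y) := by gcongr
    _ ≤ Bw * (k : ℝ) ^ (e / 2) * (k : ℝ) ^ (e / 2) * Real.exp (-mTR y) := by gcongr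
    _ = _ := by
        rw [hpow]
        ring

/-- **the regular main class at fixed half quanta in the window**: the value without statistic -/
theorem topH_val (hG : GOk (GH [I, -I] [])) (h1 : OneRT (GH [I, -I] [])) {e : ℝ} (he : 0 < e) :
    ∃ κ0 : ℝ, 0 < κ0 ∧ κ0 ≤ 1 / 100 ∧
      ∀ ep : ℝ, 0 < ep → ep ≤ κ0 → ∀ e1 : ℝ, 0 < e1 → e1 ≤ κ0 →
      ∀ J : ℝ, 0 ≤ J → Real.exp (-(2 * Real.pi * J)) ≤ κ0 →
      ∀ (c : ℕ → ℂ) (Cn : ℝ), (∀ k, k % 2 = 1 → ‖c k‖ * Real.exp ((k : ℝ) ^ 2 * EMFH) ≤ Cn) →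
      ∃ k0 : ℕ, 2 ≤ k0 ∧ ∀ k ≥ k0, k % 2 = 1 →
      (∀ (r : ℕ) (_O : Fin r → Xo), CurB ep (etaC e1 J k k) (etaC' e1 J k k)) ∧
      ∀ y : ℝ × ℝ, |y.1| ≤ TW ep e1 k → |y.2| ≤ TW ep e1 k → ∀ M ≤ 2 * k,
      ‖c k * preWW (DH [I, -I] [] ep k) y * ∑ n ∈ range (M + 1), FF (RZW (DH [I, -I] [] ep k)
          (vl (5 / 4 * l) y.1) (vl (5 / 4 * l) y.2)) (NUSea.O.par0 k) n n
          (fun _ _ => etaC e1 J k k) (fun _ _ => etaC' e1 J k k) (fun _ _ _ _ _ => 1)‖ ≤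
        (k : ℝ) ^ e * Real.exp (-mTR y) := by
  obtain ⟨κ0, hκ, hκ1, h⟩ := topH hG h1 0 0 he
  refine ⟨κ0, hκ, hκ1, fun ep hep hep1 e1 he1 he11 J hJ hJ1 c Cn hc => ?_⟩
  obtain ⟨k0, hk0, h⟩ := h Unit (fun _ _ => True) _ (statFam_one _) ep hep hep1 e1 he1 he11 J hJ
    hJ1 c Cn hc
  refine ⟨k0, hk0, fun k hk hodd => ?_⟩
  obtain ⟨hcur, h⟩ := h k hk hodd
  refine ⟨hcur, fun y hy1 hy2 M hM => ?_⟩
  have key := h y hy1 hy2 () trivial (fun _ _ => 1) 1 zero_le_one (fun _ _ => zero_le_one)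
    (fun r O => by
      rw [zero_mul, Real.exp_zero, one_mul, one_mul]
      exact Real.one_le_exp (Finset.sum_nonneg fun i _ => PBP.gT_nonneg _ _ _))
  have hR : 0 ≤ (k : ℝ) ^ e * Real.exp (-mTR y) := by positivity
  rw [← ENNReal.ofReal_le_ofReal_iff hR, norm_mul, ENNReal.ofReal_mul (norm_nonneg _)]
  rw [one_mul] at key
  refine le_trans (mul_le_mul' le_rfl ?_) key
  rw [ofReal_norm]
  refine (enorm_sum_le _ _).trans ?_
  refine le_trans (Finset.sum_le_sum fun n _ => FF_le _) ?_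
  refine (Finset.sum_le_sum_of_subset (f := fun n => FA (RZW (DH [I, -I] [] ep k)
    (vl (5 / 4 * l) y.1) (vl (5 / 4 * l) y.2)) (NUSea.O.par0 k) n n (fun _ _ => etaC e1 J k k)
    (fun _ _ => etaC' e1 J k k) (fun _ _ _ _ _ => 1)) (show range (M + 1) ⊆ range (2 * k + 1) from
      Finset.range_subset_range.2 (by omega))).trans ?_
  refine Finset.sum_le_sum fun n _ => ?_
  rw [FA_eq_FE]
  exact FE_mono fun r O a b x => by simp

/-- the normaliser -/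
theorem nrH_le {k : ℕ} (h : k % 2 = 1) : ‖nrH k‖ * Real.exp ((k : ℝ) ^ 2 * EMFH) ≤
    (Real.sin l)⁻¹ * (√(4 + 2 * √2) / 2) := by
  obtain ⟨M, rfl⟩ : ∃ M, k = 2 * M + 1 := ⟨k / 2, by omega⟩
  exact (norm_nrH_odd M).le

end ISH

end
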